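import Pool.Agent.H73.Cube.Seeds

/-!
# Random seeds: resampling, and the exceptional cells, helper73
-/

set_option autoImplicit false
set_option linter.unusedSectionVars false

namespace Pool.Agent.H73.Cube

open Finset
open Pool.Agent.H16.Cube (BC)

section resample

variable {ι α : Type} [Fintype ι] [DecidableEq ι] [Fintype α] {P : ι → α → ℝ}

/-- Resampling one coordinate does not change the expectation. -/
theorem EE_resample (hP1 : ∀ i, ∑ a, P i a = 1) (i : ι) (f : (ι → α) → ℝ) :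
    EE P (fun ω => ∑ a, P i a * f (Function.update ω i a)) = EE P f := by
  classical
  unfold EE
  have h1 : ∑ ω : ι → α, (∏ j, P j (ω j)) * ∑ a, P i a * f (Function.update ω i a) =
      ∑ p : (ι → α) × α, (∏ j, P j (p.1 j)) * P i p.2 * f (Function.update p.1 i p.2) := by
    rw [Fintype.sum_prod_type]
    refine sum_congr rfl fun ω _ => ?_
    rw [mul_sum]
    exact sum_congr rfl fun a _ => by ring
  let e : (ι → α) × α ≃ (ι → α) × α :=
    { toFun := fun p => (Function.update p.1 i p.2, p.1 i)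
      invFun := fun p => (Function.update p.1 i p.2, p.1 i)
      left_inv := by intro p; simp
      right_inv := by intro p; simp }
  have h2 : ∑ p : (ι → α) × α, (∏ j, P j (p.1 j)) * P i p.2 * f (Function.update p.1 i p.2) =
      ∑ p : (ι → α) × α, (∏ j, P j (p.1 j)) * P i p.2 * f p.1 := by
    rw [← e.sum_comp (fun p => (∏ j, P j (p.1 j)) * P i p.2 * f p.1)]
    refine sum_congr rfl fun p _ => ?_
    have h3 : (∏ j, P j ((e p).1 j)) * P i (e p).2 = (∏ j, P j (p.1 j)) * P i p.2 := by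
      have e1 : (e p).1 = Function.update p.1 i p.2 := rfl
      have e2 : (e p).2 = p.1 i := rfl
      rw [e1, e2, ← mul_prod_erase univ _ (mem_univ i),
        ← mul_prod_erase univ (fun j => P j (p.1 j)) (mem_univ i), Function.update_self]
      have h4 : ∏ j ∈ univ.erase i, P j (Function.update p.1 i p.2 j) =
          ∏ j ∈ univ.erase i, P j (p.1 j) := by
        refine prod_congr rfl fun j hj => ?_
        rw [Function.update_of_ne (ne_of_mem_erase hj)]
      rw [h4]
      ring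
    rw [h3]
    rfl
  rw [h1, h2, Fintype.sum_prod_type]
  refine sum_congr rfl fun ω _ => ?_
  have h5 : ∀ a, (∏ j, P j (ω j)) * P i a * f ω = P i a * ((∏ j, P j (ω j)) * f ω) :=
    fun a => by ring
  simp only [h5]
  rw [← sum_mul, hP1, one_mul]

/-- The expectation of a function of one coordinate. -/
theorem EE_coord (hP1 : ∀ i, ∑ a, P i a = 1) (i : ι) (f : α → ℝ) :
    EE P (fun ω => f (ω i)) = ∑ a, P i a * f a := by
  rw [← EE_resample hP1 i]
  simp only [Function.update_self]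
  exact EE_const hP1 _

theorem EE_abs (hP0 : ∀ i a, 0 ≤ P i a) (f g : (ι → α) → ℝ) (h : ∀ ω, |f ω| ≤ g ω) :
    |EE P f| ≤ EE P g := by
  rw [abs_le]
  constructor
  · rw [← EE_neg]
    exact EE_mono hP0 fun ω _ => (abs_le.1 (h ω)).1
  · exact EE_mono hP0 fun ω _ => (abs_le.1 (h ω)).2

end resample

namespace Geom

variable {Q R G : Type} [Fintype Q] [DecidableEq Q] [Fintype R] [DecidableEq R] [Fintype G]
  [DecidableEq G] {n : ℕ} (Z : Geom Q R G n) (adj : Q → Q → Prop)

open scoped Classical in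
/-- The number of positions at which a vertex of the cell is forbidden. -/
noncomputable def cnt (σ : G → Z.Od × Z.Od) (d : Q) (t : R) : ℕ :=
  (univ.filter (fun r => t ∉ Z.As adj ∅ σ d r)).card

/-- Uniform weights on the seeds. -/
noncomputable def P0 (_ : G) (_ : Z.Od × Z.Od) : ℝ := ((Fintype.card Z.Od : ℝ) ^ 2)⁻¹

/-- The exceptional event. -/
def Bad (σ : G → Z.Od × Z.Od) : Prop := ∃ d t, Fintype.card R < 8 * Z.cnt adj σ d t

variable {Z adj}

theorem P0_nonneg (g : G) (p : Z.Od × Z.Od) : 0 ≤ Z.P0 g p := by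
  unfold P0
  positivity

theorem P0_sum (hM : 0 < Fintype.card Z.Od) (g : G) : ∑ p, Z.P0 g p = 1 := by
  unfold P0
  rw [sum_const, card_univ, Fintype.card_prod, nsmul_eq_mul]
  have : (Fintype.card Z.Od : ℝ) ≠ 0 := by
    have : (0:ℝ) < Fintype.card Z.Od := by exact_mod_cast hM
    exact this.ne'
  push_cast
  field_simp

/-- A site which is not robust sees an exceptional cell. -/
theorem bad_of_not_rob {σ : G → Z.Od × Z.Od} {b : Z.Od} (h : ¬ Rob Z adj σ b) :
    Z.Bad adj σ := by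
  classical
  unfold Rob at h
  push Not at h
  obtain ⟨i, t, h⟩ := h
  refine ⟨Z.loc.D b i, t, lt_of_lt_of_le h (Nat.mul_le_mul_left _ (card_le_card ?_))⟩
  intro r hr
  rw [mem_filter] at hr ⊢
  refine ⟨mem_univ _, fun hc => hr.2 ?_⟩
  rw [mem_As] at hc ⊢
  exact fun g hg _ => hc g hg (notMem_empty g)

theorem cnt_update_le (σ : G → Z.Od × Z.Od) (d : Q) (t : R) (g : G) (p : Z.Od × Z.Od) :
    Z.cnt adj (Function.update σ g p) d t ≤ Z.cnt adj σ d t + 1 := by
  classical
  unfold cnt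
  by_cases hex : ∃ r, g ∈ Z.N (Z.reg (Z.K.sh r d))
  · obtain ⟨r0, hr0⟩ := hex
    refine (card_le_card (t := insert r0 (univ.filter (fun r => t ∉ Z.As adj ∅ σ d r)))
      ?_).trans (card_insert_le _ _)
    intro r hr
    rw [mem_insert, mem_filter]
    rw [mem_filter] at hr
    by_cases hrr : r = r0
    · exact Or.inl hrr
    · refine Or.inr ⟨mem_univ _, fun hc => hr.2 ?_⟩
      rw [mem_As] at hc ⊢
      intro g' hg' he
      rw [Function.update_of_ne]
      · exact hc g' hg' he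
      · rintro rfl
        exact hrr (Z.uniq d r r0 g' hg' hr0)
  · rw [As_update_of_not_mem ∅ σ d g p (Or.inr fun r hr => hex ⟨r, hr⟩)]
    exact Nat.le_succ _

theorem cnt_update_of_not_mem (σ : G → Z.Od × Z.Od) (d : Q) (t : R) (g : G) (p : Z.Od × Z.Od)
    (hg : ∀ r, g ∉ Z.N (Z.reg (Z.K.sh r d))) :
    Z.cnt adj (Function.update σ g p) d t = Z.cnt adj σ d t := by
  unfold cnt
  rw [As_update_of_not_mem ∅ σ d g p (Or.inr hg)]

open scoped Classical in
theorem cnt_lip (σ : G → Z.Od × Z.Od) (d : Q) (t : R) (g : G) (p : Z.Od × Z.Od) :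
    |(Z.cnt adj (Function.update σ g p) d t : ℝ) - Z.cnt adj σ d t| ≤
      if ∃ r, g ∈ Z.N (Z.reg (Z.K.sh r d)) then 1 else 0 := by
  split_ifs with h
  · have h1 := cnt_update_le (adj := adj) σ d t g p
    have h2 := cnt_update_le (adj := adj) (Function.update σ g p) d t g (σ g)
    rw [Function.update_idem, Function.update_eq_self] at h2
    have h1' : (Z.cnt adj (Function.update σ g p) d t : ℝ) ≤ Z.cnt adj σ d t + 1 := by
      exact_mod_cast h1
    have h2' : (Z.cnt adj σ d t : ℝ) ≤ Z.cnt adj (Function.update σ g p) d t + 1 := by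
      exact_mod_cast h2
    rw [abs_le]
    constructor <;> linarith
  · rw [cnt_update_of_not_mem σ d t g p (fun r hr => h ⟨r, hr⟩), sub_self, abs_zero]

open scoped Classical in
/-- The probability that a random pair of seeds is not compatible with a vertex. -/
theorem pair_le (hM : 0 < Fintype.card Z.Od) (c' : ℝ)
    (hdeg : ∀ v, ((univ.filter (fun y : Z.Od => adj y.1 v)).card : ℝ) ≤
      c' * Fintype.card Z.Od) (g : G) (v : Q) :
    ∑ p, Z.P0 g p * (if Z.okv adj p v then 0 else 1) ≤ 2 * c' := by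
  have hM' : (0:ℝ) < Fintype.card Z.Od := by exact_mod_cast hM
  set M : ℝ := (Fintype.card Z.Od : ℝ) with hMd
  have h1 : ∑ p : Z.Od × Z.Od, (if Z.okv adj p v then (0:ℝ) else 1) ≤
      ∑ p : Z.Od × Z.Od, ((if adj p.1.1 v then 1 else 0) + (if adj p.2.1 v then 1 else 0)) := by
    refine sum_le_sum fun p _ => ?_
    unfold okv
    by_cases h1 : adj p.1.1 v
    · rw [if_neg (fun h => h.1 h1), if_pos h1]
      split_ifs <;> norm_num
    · by_cases h2 : adj p.2.1 v
      · rw [if_neg (fun h => h.2 h2), if_neg h1, if_pos h2]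
        norm_num
      · rw [if_pos ⟨h1, h2⟩]
        split_ifs; norm_num
  have h2 : ∑ p : Z.Od × Z.Od, ((if adj p.1.1 v then (1:ℝ) else 0) +
      (if adj p.2.1 v then 1 else 0)) = 2 * (M * (univ.filter (fun y : Z.Od => adj y.1 v)).card) := by
    have e1 : ∀ f : Z.Od → ℝ, ∑ p : Z.Od × Z.Od, (f p.1 + f p.2) = 2 * (M * ∑ y, f y) := by
      intro f
      rw [Fintype.sum_prod_type]
      simp only [sum_add_distrib, sum_const, card_univ, nsmul_eq_mul]
      rw [← mul_sum]
      ring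
    rw [e1 (fun y => if adj y.1 v then (1:ℝ) else 0), sum_boole]
  have h3 : ∑ p, Z.P0 g p * (if Z.okv adj p v then (0:ℝ) else 1) =
      (M ^ 2)⁻¹ * ∑ p : Z.Od × Z.Od, (if Z.okv adj p v then (0:ℝ) else 1) := by
    rw [mul_sum]
    rfl
  rw [h3]
  have h4 : (M ^ 2)⁻¹ * ∑ p : Z.Od × Z.Od, (if Z.okv adj p v then (0:ℝ) else 1) ≤
      (M ^ 2)⁻¹ * (2 * (M * (c' * M))) := by
    refine mul_le_mul_of_nonneg_left (h1.trans ?_) (by positivity)
    rw [h2]
    refine mul_le_mul_of_nonneg_left (mul_le_mul_of_nonneg_left (hdeg v) hM'.le) (by norm_num)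
  refine h4.trans (le_of_eq ?_)
  field_simp

open scoped Classical in
/-- The mean of the number of forbidden positions. -/
theorem cnt_mean (hM : 0 < Fintype.card Z.Od) (c' : ℝ) (hc' : 0 ≤ c')
    (hdeg : ∀ v, ((univ.filter (fun y : Z.Od => adj y.1 v)).card : ℝ) ≤
      c' * Fintype.card Z.Od) (k1 : ℕ) (hk1 : ∀ g, (Z.N g).card ≤ k1) (d : Q) (t : R) :
    EE Z.P0 (fun σ => (Z.cnt adj σ d t : ℝ)) ≤ Fintype.card R * (k1 * (2 * c')) := by
  have h1 : ∀ σ : G → Z.Od × Z.Od, (Z.cnt adj σ d t : ℝ) ≤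
      ∑ r, ∑ g ∈ Z.N (Z.reg (Z.K.sh r d)),
        (if Z.okv adj (σ g) (Z.K.sh t d) then 0 else 1) := by
    intro σ
    unfold cnt
    rw [card_eq_sum_ones, sum_filter]
    push_cast
    refine sum_le_sum fun r _ => ?_
    have hnn : ∀ g ∈ Z.N (Z.reg (Z.K.sh r d)),
        (0:ℝ) ≤ (if Z.okv adj (σ g) (Z.K.sh t d) then 0 else 1) := fun g _ => by
      split_ifs <;> norm_num
    by_cases h : t ∈ Z.As adj ∅ σ d r
    · rw [if_neg (fun hc => hc h)]
      exact sum_nonneg hnn
    · rw [if_pos h]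
      rw [mem_As] at h
      push Not at h
      obtain ⟨g, hg, _, h⟩ := h
      have := single_le_sum hnn hg
      rw [if_neg h] at this
      exact this
  refine (EE_mono P0_nonneg fun σ _ => h1 σ).trans ?_
  rw [EE_sum]
  have h2 : ∀ r ∈ (univ : Finset R), EE Z.P0 (fun σ => ∑ g ∈ Z.N (Z.reg (Z.K.sh r d)),
      (if Z.okv adj (σ g) (Z.K.sh t d) then (0:ℝ) else 1)) ≤ k1 * (2 * c') := by
    intro r _
    rw [EE_sum]
    have h3 : ∀ g ∈ Z.N (Z.reg (Z.K.sh r d)),
        EE Z.P0 (fun σ => (if Z.okv adj (σ g) (Z.K.sh t d) then (0:ℝ) else 1)) ≤ 2 * c' := by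
      intro g _
      rw [EE_coord (P0_sum hM) g (fun p => if Z.okv adj p (Z.K.sh t d) then (0:ℝ) else 1)]
      exact pair_le hM c' hdeg g _
    refine (sum_le_card_nsmul _ _ _ h3).trans ?_
    rw [nsmul_eq_mul]
    refine mul_le_mul_of_nonneg_right ?_ (by positivity)
    exact_mod_cast hk1 _
  refine (sum_le_card_nsmul _ _ _ h2).trans (le_of_eq ?_)
  rw [card_univ, nsmul_eq_mul]

open scoped Classical in
/-- The probability of the exceptional event. -/
theorem bad_le (hM : 0 < Fintype.card Z.Od) (c' : ℝ) (hc' : 0 ≤ c')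
    (hdeg : ∀ v, ((univ.filter (fun y : Z.Od => adj y.1 v)).card : ℝ) ≤
      c' * Fintype.card Z.Od) (k1 : ℕ) (hk0 : 0 < k1) (hk1 : ∀ g, (Z.N g).card ≤ k1)
    (hkc : 32 * (k1 * c') ≤ 1) (hR : 0 < Fintype.card R) :
    EE Z.P0 (fun σ => if Z.Bad adj σ then 1 else 0) ≤
      Fintype.card Q * Fintype.card R * Real.exp (-(Fintype.card R / (512 * k1))) := by
  set s : ℝ := (Fintype.card R : ℝ) with hs
  have hs0 : 0 < s := by rw [hs]; exact_mod_cast hR
  have hk0' : (0:ℝ) < k1 := by exact_mod_cast hk0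
  have h1 : ∀ σ : G → Z.Od × Z.Od, (if Z.Bad adj σ then (1:ℝ) else 0) ≤
      ∑ q : Q × R, (if EE Z.P0 (fun σ => (Z.cnt adj σ q.1 q.2 : ℝ)) + s / 16 ≤
        (Z.cnt adj σ q.1 q.2 : ℝ) then 1 else 0) := by
    intro σ
    have hnn : ∀ q ∈ (univ : Finset (Q × R)),
        (0:ℝ) ≤ (if EE Z.P0 (fun σ => (Z.cnt adj σ q.1 q.2 : ℝ)) + s / 16 ≤
        (Z.cnt adj σ q.1 q.2 : ℝ) then 1 else 0) := fun q _ => by
      split_ifs <;> norm_num
    split_ifs with h
    · obtain ⟨d, t, h⟩ := h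
      have h2 := single_le_sum hnn (mem_univ (d, t))
      have h3 : EE Z.P0 (fun σ => (Z.cnt adj σ d t : ℝ)) + s / 16 ≤
          (Z.cnt adj σ d t : ℝ) := by
        have h4 := cnt_mean hM c' hc' hdeg k1 hk1 d t
        have h5 : s < 8 * (Z.cnt adj σ d t : ℝ) := by
          rw [hs]
          exact_mod_cast h
        have h6 : s * (k1 * (2 * c')) ≤ s * (1 / 16) := by
          refine mul_le_mul_of_nonneg_left ?_ hs0.le
          linarith
        linarith
      simp only at h2
      rw [if_pos h3] at h2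
      exact h2
    · exact sum_nonneg hnn
  refine (EE_mono P0_nonneg fun σ _ => h1 σ).trans ?_
  rw [EE_sum]
  have h2 : ∀ q ∈ (univ : Finset (Q × R)),
      EE Z.P0 (fun σ => (if EE Z.P0 (fun σ => (Z.cnt adj σ q.1 q.2 : ℝ)) + s / 16 ≤
        (Z.cnt adj σ q.1 q.2 : ℝ) then (1:ℝ) else 0)) ≤ Real.exp (-(s / (512 * k1))) := by
    rintro ⟨d, t⟩ _
    have hV : ∑ g : G, (if ∃ r, g ∈ Z.N (Z.reg (Z.K.sh r d)) then (1:ℝ) else 0) ^ 2 ≤
        s * k1 := by
      have e1 : ∀ g : G, (if ∃ r, g ∈ Z.N (Z.reg (Z.K.sh r d)) then (1:ℝ) else 0) ^ 2 =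
          if ∃ r, g ∈ Z.N (Z.reg (Z.K.sh r d)) then (1:ℝ) else 0 := fun g => by
        split_ifs <;> norm_num
      simp only [e1]
      rw [sum_boole]
      have e2 : (univ.filter (fun g => ∃ r, g ∈ Z.N (Z.reg (Z.K.sh r d)))) ⊆
          (univ : Finset R).biUnion (fun r => Z.N (Z.reg (Z.K.sh r d))) := by
        intro g hg
        rw [mem_filter] at hg
        obtain ⟨r, hr⟩ := hg.2
        exact mem_biUnion.2 ⟨r, mem_univ r, hr⟩
      have e3 := (card_le_card e2).trans card_biUnion_le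
      have e4 : ∑ r : R, (Z.N (Z.reg (Z.K.sh r d))).card ≤ Fintype.card R * k1 := by
        refine (sum_le_card_nsmul _ _ _ (fun r _ => hk1 _)).trans (le_of_eq ?_)
        rw [card_univ, smul_eq_mul]
      rw [hs]
      exact_mod_cast e3.trans e4
    have h3 := mcdW_upper (P := Z.P0) P0_nonneg (P0_sum hM)
      (fun σ => (Z.cnt adj σ d t : ℝ))
      (fun g => if ∃ r, g ∈ Z.N (Z.reg (Z.K.sh r d)) then (1:ℝ) else 0)
      (fun g => by split_ifs <;> norm_num)
      (fun g σ p => cnt_lip σ d t g p) (s / 16) (s * k1) (by positivity) (by positivity) hV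
    refine le_trans (le_of_eq ?_) (h3.trans (le_of_eq ?_))
    · congr 1
    · congr 2
      field_simp
      ring
  refine (sum_le_card_nsmul _ _ _ h2).trans (le_of_eq ?_)
  rw [card_univ, Fintype.card_prod, nsmul_eq_mul, hs]
  push_cast
  ring

end Geom

end Pool.Agent.H73.Cube
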