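import Mathlib

/-!
# Posterior weights (Bayes module of the sqrt theorem for the spanning hypercube), helper73

`p i` are probability vectors on `R`, `ok i y` is the set of values of column `i` compatible
with `y`.  For a pair `(y1, y2)` the law `L y1 y2` is the product measure conditioned on being
compatible with both.
-/

set_option autoImplicit false

namespace Pool.Agent.H73.Cube

open Finset

/-- The data: `n` columns, probability vectors and compatibility sets. -/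
structure Bay (Y R : Type) [Fintype Y] [Fintype R] (n : ℕ) where
  p : Fin n → R → ℝ
  p_nonneg : ∀ i t, 0 ≤ p i t
  p_sum : ∀ i, ∑ t, p i t = 1
  ok : Fin n → Y → R → Prop

namespace Bay

variable {Y R : Type} [Fintype Y] [Fintype R] {n : ℕ} (K : Bay Y R n)

open scoped Classical in
/-- Normalisation of a pair. -/
noncomputable def A (y1 y2 : Y) : ℝ :=
  ∏ i, ∑ t, if K.ok i y1 t ∧ K.ok i y2 t then K.p i t else 0

open scoped Classical in
/-- The vertices compatible with the configuration `S`. -/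
noncomputable def Gam (S : Fin n → R) : Finset Y :=
  univ.filter (fun y => ∀ i, K.ok i y (S i))

/-- Product probability of a configuration. -/
noncomputable def pr (S : Fin n → R) : ℝ := ∏ i, K.p i (S i)

open scoped Classical in
/-- The conditional law given the pair `(y1, y2)`. -/
noncomputable def L (y1 y2 : Y) (S : Fin n → R) : ℝ :=
  (∏ i, if K.ok i y1 (S i) ∧ K.ok i y2 (S i) then K.p i (S i) else 0) / K.A y1 y2

open scoped Classical in
/-- The posterior weights. -/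
noncomputable def w (y : Y) (S : Fin n → R) : ℝ :=
  if y ∈ K.Gam S then
    (∑ y2 ∈ K.Gam S, (K.A y y2)⁻¹) / (∑ y1 ∈ K.Gam S, ∑ y2 ∈ K.Gam S, (K.A y1 y2)⁻¹)
  else 0

theorem mem_Gam {y : Y} {S : Fin n → R} : y ∈ K.Gam S ↔ ∀ i, K.ok i y (S i) := by
  classical
  simp [Gam]

theorem pr_nonneg (S : Fin n → R) : 0 ≤ K.pr S := prod_nonneg fun i _ => K.p_nonneg i _

theorem pr_sum : ∑ S, K.pr S = 1 := by
  classical
  unfold pr
  rw [← Fintype.prod_sum (fun i t => K.p i t)]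
  simp [K.p_sum]

open scoped Classical in
theorem L_eq (y1 y2 : Y) (S : Fin n → R) :
    K.L y1 y2 S = if y1 ∈ K.Gam S ∧ y2 ∈ K.Gam S then K.pr S * (K.A y1 y2)⁻¹ else 0 := by
  unfold L pr
  split_ifs with h
  · rw [mem_Gam, mem_Gam] at h
    rw [div_eq_mul_inv]
    congr 1
    refine prod_congr rfl fun i _ => ?_
    rw [if_pos ⟨h.1 i, h.2 i⟩]
  · have : ∃ i, ¬ (K.ok i y1 (S i) ∧ K.ok i y2 (S i)) := by
      by_contra hc
      push Not at hc
      exact h ⟨(K.mem_Gam).2 fun i => (hc i).1, (K.mem_Gam).2 fun i => (hc i).2⟩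
    obtain ⟨i, hi⟩ := this
    rw [prod_eq_zero (mem_univ i) (by rw [if_neg hi]), zero_div]

theorem L_nonneg (y1 y2 : Y) (S : Fin n → R) (hA : 0 ≤ K.A y1 y2) : 0 ≤ K.L y1 y2 S := by
  classical
  rw [L_eq]
  split_ifs
  · exact mul_nonneg (K.pr_nonneg S) (inv_nonneg.2 hA)
  · exact le_rfl

/-- The law of a pair has total mass one. -/
theorem L_sum (y1 y2 : Y) (hA : K.A y1 y2 ≠ 0) : ∑ S, K.L y1 y2 S = 1 := by
  classical
  unfold L
  rw [← sum_div, ← Fintype.prod_sum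
    (fun i t => if K.ok i y1 t ∧ K.ok i y2 t then K.p i t else 0)]
  exact div_self hA

theorem sum3_comm (f : Y → Y → (Fin n → R) → ℝ) :
    ∑ y1, ∑ y2, ∑ S, f y1 y2 S = ∑ S, ∑ y1, ∑ y2, f y1 y2 S := by
  have h : ∀ y1, ∑ y2, ∑ S, f y1 y2 S = ∑ S, ∑ y2, f y1 y2 S := fun y1 => sum_comm
  simp_rw [h]
  exact sum_comm

theorem A_le_one (y1 y2 : Y) : K.A y1 y2 ≤ 1 := by
  classical
  unfold A
  refine prod_le_one (fun i _ => sum_nonneg fun t _ => ?_) fun i _ => ?_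
  · split_ifs
    · exact K.p_nonneg i t
    · exact le_rfl
  · rw [← K.p_sum i]
    refine sum_le_sum fun t _ => ?_
    split_ifs
    · exact le_rfl
    · exact K.p_nonneg i t

variable {a : ℝ} (ha : 0 < a) (hA : ∀ y1 y2, a⁻¹ ≤ K.A y1 y2)

include ha hA

theorem A_pos (y1 y2 : Y) : 0 < K.A y1 y2 := lt_of_lt_of_le (inv_pos.2 ha) (hA y1 y2)

theorem inv_A_le (y1 y2 : Y) : (K.A y1 y2)⁻¹ ≤ a := by
  rw [inv_le_comm₀ (K.A_pos ha hA y1 y2) ha]
  exact hA y1 y2

theorem one_le_inv_A (y1 y2 : Y) : 1 ≤ (K.A y1 y2)⁻¹ :=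
  (one_le_inv₀ (K.A_pos ha hA y1 y2)).2 (K.A_le_one y1 y2)

theorem row_ge (y : Y) (S : Fin n → R) :
    ((K.Gam S).card : ℝ) ≤ ∑ y2 ∈ K.Gam S, (K.A y y2)⁻¹ := by
  have := card_nsmul_le_sum (K.Gam S) (fun y2 => (K.A y y2)⁻¹) 1
    (fun y2 _ => K.one_le_inv_A ha hA y y2)
  simpa using this

theorem row_le (y : Y) (S : Fin n → R) :
    ∑ y2 ∈ K.Gam S, (K.A y y2)⁻¹ ≤ a * (K.Gam S).card := by
  have := sum_le_card_nsmul (K.Gam S) (fun y2 => (K.A y y2)⁻¹) a
    (fun y2 _ => K.inv_A_le ha hA y y2)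
  simpa [mul_comm] using this

theorem tot_ge (S : Fin n → R) :
    ((K.Gam S).card : ℝ) * (K.Gam S).card ≤
      ∑ y1 ∈ K.Gam S, ∑ y2 ∈ K.Gam S, (K.A y1 y2)⁻¹ := by
  have := card_nsmul_le_sum (K.Gam S) (fun y1 => ∑ y2 ∈ K.Gam S, (K.A y1 y2)⁻¹)
    ((K.Gam S).card : ℝ) (fun y1 _ => K.row_ge ha hA y1 S)
  simpa using this

theorem tot_le (S : Fin n → R) :
    ∑ y1 ∈ K.Gam S, ∑ y2 ∈ K.Gam S, (K.A y1 y2)⁻¹ ≤
      a * ((K.Gam S).card * (K.Gam S).card) := by
  have := sum_le_card_nsmul (K.Gam S) (fun y1 => ∑ y2 ∈ K.Gam S, (K.A y1 y2)⁻¹)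
    (a * (K.Gam S).card) (fun y1 _ => K.row_le ha hA y1 S)
  rw [nsmul_eq_mul] at this
  linarith

theorem tot_pos {S : Fin n → R} (hS : (K.Gam S).Nonempty) :
    0 < ∑ y1 ∈ K.Gam S, ∑ y2 ∈ K.Gam S, (K.A y1 y2)⁻¹ := by
  have h := K.tot_ge ha hA S
  have h1 : (0:ℝ) < (K.Gam S).card := by exact_mod_cast hS.card_pos
  nlinarith

theorem w_nonneg (y : Y) (S : Fin n → R) : 0 ≤ K.w y S := by
  unfold w
  split_ifs with h
  · exact div_nonneg (sum_nonneg fun y2 _ => (inv_pos.2 (K.A_pos ha hA y y2)).le)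
      (K.tot_pos ha hA ⟨y, h⟩).le
  · exact le_rfl

omit ha hA in
theorem w_of_not_mem {y : Y} {S : Fin n → R} (h : y ∉ K.Gam S) : K.w y S = 0 := by
  unfold w
  rw [if_neg h]

/-- (B1) The posterior weights of a configuration sum to one. -/
theorem w_sum {S : Fin n → R} (hS : (K.Gam S).Nonempty) : ∑ y, K.w y S = 1 := by
  classical
  unfold w
  rw [← sum_filter]
  have : (univ.filter (fun y => y ∈ K.Gam S)) = K.Gam S := by ext; simp
  rw [this, ← sum_div, div_self (K.tot_pos ha hA hS).ne']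

theorem w_sum_le (S : Fin n → R) : ∑ y, K.w y S ≤ 1 := by
  rcases (K.Gam S).eq_empty_or_nonempty with h | h
  · have : ∀ y, K.w y S = 0 := fun y => K.w_of_not_mem (by rw [h]; simp)
    simp [this]
  · exact (K.w_sum ha hA h).le

/-- (B2), upper bound. -/
theorem w_le (y : Y) (S : Fin n → R) : K.w y S ≤ a / (K.Gam S).card := by
  unfold w
  split_ifs with h
  · have h1 : (0:ℝ) < (K.Gam S).card := by exact_mod_cast (card_pos.2 ⟨y, h⟩)
    rw [div_le_div_iff₀ (K.tot_pos ha hA ⟨y, h⟩) h1]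
    have h2 := K.row_le ha hA y S
    have h3 := K.tot_ge ha hA S
    nlinarith
  · positivity

/-- (B2), lower bound. -/
theorem le_w {y : Y} {S : Fin n → R} (h : y ∈ K.Gam S) : 1 / (a * (K.Gam S).card) ≤ K.w y S := by
  unfold w
  rw [if_pos h]
  have h1 : (0:ℝ) < (K.Gam S).card := by exact_mod_cast (card_pos.2 ⟨y, h⟩)
  rw [div_le_div_iff₀ (by positivity) (K.tot_pos ha hA ⟨y, h⟩)]
  have h2 := mul_le_mul_of_nonneg_right (K.row_ge ha hA y S)
    (mul_nonneg ha.le h1.le)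
  have h3 := K.tot_le ha hA S
  linarith

open scoped Classical in
/-- Bayes' formula: the mixture of the laws, weighted by the posterior weight of `y`. -/
theorem bayes (y : Y) (S : Fin n → R) :
    ∑ y1, ∑ y2, K.L y1 y2 S * K.w y S =
      if y ∈ K.Gam S then K.pr S * ∑ y2 ∈ K.Gam S, (K.A y y2)⁻¹ else 0 := by
  classical
  have h1 : ∑ y1, ∑ y2, K.L y1 y2 S =
      K.pr S * ∑ y1 ∈ K.Gam S, ∑ y2 ∈ K.Gam S, (K.A y1 y2)⁻¹ := by
    rw [mul_sum, ← sum_subset (subset_univ (K.Gam S))]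
    · refine sum_congr rfl fun y1 h1 => ?_
      rw [mul_sum, ← sum_subset (subset_univ (K.Gam S))]
      · refine sum_congr rfl fun y2 h2 => ?_
        rw [L_eq, if_pos ⟨h1, h2⟩]
      · intro y2 _ h2
        rw [L_eq, if_neg (fun h => h2 h.2)]
    · intro y1 _ h1
      refine sum_eq_zero fun y2 _ => ?_
      rw [L_eq, if_neg (fun h => h1 h.1)]
  simp_rw [← sum_mul]
  rw [h1]
  unfold w
  split_ifs with h
  · rw [mul_assoc, mul_div_cancel₀ _ (K.tot_pos ha hA ⟨y, h⟩).ne']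
  · rw [mul_zero]

/-- (B3), exact form: the expected posterior weight of `y` is `1 / M`. -/
theorem mean_w (y : Y) :
    ∑ y1, ∑ y2, ∑ S, K.L y1 y2 S * K.w y S = Fintype.card Y := by
  classical
  have e1 : ∑ y1, ∑ y2, ∑ S, K.L y1 y2 S * K.w y S =
      ∑ S, ∑ y1, ∑ y2, K.L y1 y2 S * K.w y S := by
    rw [sum3_comm]
  rw [e1]
  simp_rw [K.bayes ha hA]
  have e2 : ∀ S, (if y ∈ K.Gam S then K.pr S * ∑ y2 ∈ K.Gam S, (K.A y y2)⁻¹ else 0) =
      ∑ y2, K.L y y2 S := by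
    intro S
    split_ifs with h
    · rw [mul_sum, ← sum_subset (subset_univ (K.Gam S))]
      · refine sum_congr rfl fun y2 h2 => ?_
        rw [L_eq, if_pos ⟨h, h2⟩]
      · intro y2 _ h2
        rw [L_eq, if_neg (fun h => h2 h.2)]
    · symm
      refine sum_eq_zero fun y2 _ => ?_
      rw [L_eq, if_neg (fun h' => h h'.1)]
  simp_rw [e2]
  rw [sum_comm]
  simp_rw [K.L_sum y _ (K.A_pos ha hA y _).ne']
  simp

/-- (B3), small sets: configurations with fewer than `θ M` compatible vertices contribute at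
most `θ a` (times `M`, because the average over pairs is not yet divided by `M ^ 2`). -/
theorem mean_w_small (y : Y) (θ : ℝ) (hθ : 0 ≤ θ) (h : (Fin n → R) → ℝ) (h1 : ∀ S, h S ≤ 1)
    (hh : ∀ S, θ * Fintype.card Y < (K.Gam S).card → h S = 0) :
    ∑ y1, ∑ y2, ∑ S, K.L y1 y2 S * K.w y S * h S ≤ θ * a * Fintype.card Y := by
  classical
  have e1 : ∑ y1, ∑ y2, ∑ S, K.L y1 y2 S * K.w y S * h S =
      ∑ S, (∑ y1, ∑ y2, K.L y1 y2 S * K.w y S) * h S := by
    rw [sum3_comm]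
    simp_rw [sum_mul]
  rw [e1]
  simp_rw [K.bayes ha hA]
  have e2 : ∀ S, (if y ∈ K.Gam S then K.pr S * ∑ y2 ∈ K.Gam S, (K.A y y2)⁻¹ else 0) * h S ≤
      K.pr S * (θ * a * Fintype.card Y) := by
    intro S
    have hp := K.pr_nonneg S
    by_cases hc : θ * Fintype.card Y < (K.Gam S).card
    · rw [hh S hc, mul_zero]
      positivity
    · push Not at hc
      split_ifs with hy
      · have h2 := K.row_le ha hA y S
        have h3 : 0 ≤ ∑ y2 ∈ K.Gam S, (K.A y y2)⁻¹ :=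
          sum_nonneg fun y2 _ => (inv_pos.2 (K.A_pos ha hA y y2)).le
        calc K.pr S * (∑ y2 ∈ K.Gam S, (K.A y y2)⁻¹) * h S
            ≤ K.pr S * (∑ y2 ∈ K.Gam S, (K.A y y2)⁻¹) * 1 :=
              mul_le_mul_of_nonneg_left (h1 S) (mul_nonneg hp h3)
          _ = K.pr S * (∑ y2 ∈ K.Gam S, (K.A y y2)⁻¹) := mul_one _
          _ ≤ K.pr S * (θ * a * Fintype.card Y) := by
              refine mul_le_mul_of_nonneg_left (h2.trans ?_) hp
              nlinarith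
      · rw [zero_mul]
        positivity
  calc _ ≤ ∑ S, K.pr S * (θ * a * Fintype.card Y) := sum_le_sum fun S _ => e2 S
    _ = θ * a * Fintype.card Y := by rw [← sum_mul, K.pr_sum, one_mul]

/-- (B4) The probability that few vertices are compatible. -/
theorem mean_small (η : ℝ) (h : (Fin n → R) → ℝ) (h1 : ∀ S, h S ≤ 1)
    (hh : ∀ S, η * Fintype.card Y < (K.Gam S).card → h S = 0) :
    ∑ y1, ∑ y2, ∑ S, K.L y1 y2 S * h S ≤ a * η ^ 2 * (Fintype.card Y : ℝ) ^ 2 := by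
  classical
  have e1 : ∑ y1, ∑ y2, ∑ S, K.L y1 y2 S * h S = ∑ S, (∑ y1, ∑ y2, K.L y1 y2 S) * h S := by
    rw [sum3_comm]
    simp_rw [sum_mul]
  rw [e1]
  have h2 : ∀ S, ∑ y1, ∑ y2, K.L y1 y2 S =
      K.pr S * ∑ y1 ∈ K.Gam S, ∑ y2 ∈ K.Gam S, (K.A y1 y2)⁻¹ := by
    intro S
    rw [mul_sum, ← sum_subset (subset_univ (K.Gam S))]
    · refine sum_congr rfl fun y1 h1 => ?_
      rw [mul_sum, ← sum_subset (subset_univ (K.Gam S))]
      · refine sum_congr rfl fun y2 h2 => ?_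
        rw [L_eq, if_pos ⟨h1, h2⟩]
      · intro y2 _ h2
        rw [L_eq, if_neg (fun h => h2 h.2)]
    · intro y1 _ h1
      refine sum_eq_zero fun y2 _ => ?_
      rw [L_eq, if_neg (fun h => h1 h.1)]
  simp_rw [h2]
  have e2 : ∀ S, (K.pr S * ∑ y1 ∈ K.Gam S, ∑ y2 ∈ K.Gam S, (K.A y1 y2)⁻¹) * h S ≤
      K.pr S * (a * η ^ 2 * (Fintype.card Y : ℝ) ^ 2) := by
    intro S
    have hp := K.pr_nonneg S
    by_cases hc : η * Fintype.card Y < (K.Gam S).card
    · rw [hh S hc, mul_zero]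
      positivity
    · push Not at hc
      have h3 := K.tot_le ha hA S
      have h4 : 0 ≤ ∑ y1 ∈ K.Gam S, ∑ y2 ∈ K.Gam S, (K.A y1 y2)⁻¹ :=
        sum_nonneg fun y1 _ => sum_nonneg fun y2 _ => (inv_pos.2 (K.A_pos ha hA y1 y2)).le
      have h5 : (0:ℝ) ≤ (K.Gam S).card := by positivity
      calc _ ≤ (K.pr S * ∑ y1 ∈ K.Gam S, ∑ y2 ∈ K.Gam S, (K.A y1 y2)⁻¹) * 1 :=
              mul_le_mul_of_nonneg_left (h1 S) (mul_nonneg hp h4)
        _ = K.pr S * ∑ y1 ∈ K.Gam S, ∑ y2 ∈ K.Gam S, (K.A y1 y2)⁻¹ := mul_one _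
        _ ≤ K.pr S * (a * η ^ 2 * (Fintype.card Y : ℝ) ^ 2) := by
            refine mul_le_mul_of_nonneg_left (h3.trans ?_) hp
            have : ((K.Gam S).card : ℝ) * (K.Gam S).card ≤
                (η * Fintype.card Y) * (η * Fintype.card Y) :=
              mul_le_mul hc hc h5 (h5.trans hc)
            nlinarith
  calc _ ≤ ∑ S, K.pr S * (a * η ^ 2 * (Fintype.card Y : ℝ) ^ 2) := sum_le_sum fun S _ => e2 S
    _ = a * η ^ 2 * (Fintype.card Y : ℝ) ^ 2 := by rw [← sum_mul, K.pr_sum, one_mul]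

end Bay

end Pool.Agent.H73.Cube
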