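import Pool.Agent.H73.Cube.McDW

/-!
# Local statistics of a product measure: means, influences, simultaneous concentration, helper73
-/

set_option autoImplicit false

namespace Pool.Agent.H73.Cube

open Finset

/-- Union bound for finitely many Lipschitz statistics and finitely many nonnegative ones. -/
theorem exists_good {ι α I J : Type} [Fintype ι] [DecidableEq ι] [Fintype α] [Fintype I]
    [Fintype J] {P : ι → α → ℝ} (hP0 : ∀ i a, 0 ≤ P i a) (hP1 : ∀ i, ∑ a, P i a = 1)
    (F : I → (ι → α) → ℝ) (c : I → ι → ℝ) (hc : ∀ m i, 0 ≤ c m i)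
    (hF : ∀ m i ω a, |F m (Function.update ω i a) - F m ω| ≤ c m i)
    (t V : I → ℝ) (ht : ∀ m, 0 ≤ t m) (hV : ∀ m, 0 < V m) (hcV : ∀ m, ∑ i, c m i ^ 2 ≤ V m)
    (G : J → (ι → α) → ℝ) (hG : ∀ j ω, 0 ≤ G j ω) (τ : J → ℝ) (hτ : ∀ j, 0 < τ j)
    (hsum : ∑ m, 2 * Real.exp (-(t m ^ 2 / (2 * V m))) + ∑ j, EE P (G j) / τ j < 1) :
    ∃ ω : ι → α, (∀ i, 0 < P i (ω i)) ∧ (∀ m, |F m ω - EE P (F m)| < t m) ∧
      ∀ j, G j ω < τ j := by
  classical
  let u : I → (ι → α) → ℝ := fun m ω => if EE P (F m) + t m ≤ F m ω then 1 else 0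
  let l : I → (ι → α) → ℝ := fun m ω => if F m ω ≤ EE P (F m) - t m then 1 else 0
  have hu : ∀ m, EE P (u m) ≤ Real.exp (-(t m ^ 2 / (2 * V m))) := fun m => by
    have := mcdW_upper hP0 hP1 (F m) (c m) (hc m) (hF m) (t m) (V m) (ht m) (hV m) (hcV m)
    convert this using 2
  have hl : ∀ m, EE P (l m) ≤ Real.exp (-(t m ^ 2 / (2 * V m))) := fun m => by
    have := mcdW_lower hP0 hP1 (F m) (c m) (hc m) (hF m) (t m) (V m) (ht m) (hV m) (hcV m)
    convert this using 2
  have hu0 : ∀ m ω, 0 ≤ u m ω := fun m ω => by simp only [u]; split_ifs <;> norm_num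
  have hl0 : ∀ m ω, 0 ≤ l m ω := fun m ω => by simp only [l]; split_ifs <;> norm_num
  have hE : EE P (fun ω => (∑ m, (u m ω + l m ω)) + ∑ j, (τ j)⁻¹ * G j ω) < 1 := by
    rw [EE_add, EE_sum, EE_sum]
    refine lt_of_le_of_lt (add_le_add ?_ (le_of_eq ?_)) hsum
    · refine sum_le_sum fun m _ => ?_
      rw [EE_add]
      have h1 := hu m
      have h2 := hl m
      linarith
    · refine sum_congr rfl fun j _ => ?_
      rw [EE_smul, div_eq_inv_mul]
  obtain ⟨ω, hω, hlt⟩ := exists_lt_one hP0 hP1 _ hE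
  have hA0 : ∀ m ∈ (univ : Finset I), 0 ≤ u m ω + l m ω := fun m _ =>
    add_nonneg (hu0 m ω) (hl0 m ω)
  have hB0 : ∀ j ∈ (univ : Finset J), 0 ≤ (τ j)⁻¹ * G j ω := fun j _ =>
    mul_nonneg (inv_nonneg.2 (hτ j).le) (hG j ω)
  have hA : ∀ m, u m ω + l m ω < 1 := fun m => by
    have h1 := single_le_sum hA0 (mem_univ m)
    have h2 := sum_nonneg hB0
    linarith
  have hB : ∀ j, (τ j)⁻¹ * G j ω < 1 := fun j => by
    have h1 := single_le_sum hB0 (mem_univ j)
    have h2 := sum_nonneg hA0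
    linarith
  refine ⟨ω, hω, fun m => ?_, fun j => ?_⟩
  · have h1 := hA m
    have h2 := hu0 m ω
    have h3 := hl0 m ω
    have h4 : ¬ EE P (F m) + t m ≤ F m ω := by
      intro hc
      simp only [u, if_pos hc] at h1
      linarith
    have h5 : ¬ F m ω ≤ EE P (F m) - t m := by
      intro hc
      simp only [l, if_pos hc] at h1
      linarith
    rw [abs_lt]
    constructor <;> linarith
  · have h1 := hB j
    rw [inv_mul_lt_iff₀ (hτ j)] at h1
    linarith

/-- Sites `b` which look at `n` distinct coordinates `D b i` of `ω : ι → α`, through the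
functions `val b i`. -/
structure Loc (ι α X T : Type) (n : ℕ) where
  D : X → Fin n → ι
  D_inj : ∀ b, Function.Injective (D b)
  val : X → Fin n → α → T

namespace Loc

variable {ι α X T : Type} {n : ℕ} (K : Loc ι α X T n)

/-- What the site `b` sees. -/
def S (ω : ι → α) (b : X) : Fin n → T := fun i => K.val b i (ω (K.D b i))

variable [Fintype ι] [DecidableEq ι] [Fintype α] [Fintype X] [Fintype T] [DecidableEq T]

/-- The law of the `i`-th value seen by `b`. -/
def law (P : ι → α → ℝ) (b : X) (i : Fin n) (t : T) : ℝ :=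
  ∑ a, if K.val b i a = t then P (K.D b i) a else 0

omit [Fintype ι] [DecidableEq ι] [Fintype X] [Fintype T] in
theorem law_nonneg {P : ι → α → ℝ} (hP0 : ∀ i a, 0 ≤ P i a) (b : X) (i : Fin n) (t : T) :
    0 ≤ K.law P b i t := by
  unfold law
  refine sum_nonneg fun a _ => ?_
  split_ifs
  · exact hP0 _ _
  · exact le_rfl

omit [Fintype ι] [DecidableEq ι] [Fintype X] in
theorem law_sum {P : ι → α → ℝ} (hP1 : ∀ i, ∑ a, P i a = 1) (b : X) (i : Fin n) :
    ∑ t, K.law P b i t = 1 := by
  unfold law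
  rw [sum_comm, ← hP1 (K.D b i)]
  refine sum_congr rfl fun a _ => ?_
  simp

omit [Fintype X] in
/-- The mean of a function of what `b` sees. -/
theorem EE_site {P : ι → α → ℝ} (hP1 : ∀ i, ∑ a, P i a = 1) (b : X) (φ : (Fin n → T) → ℝ) :
    EE P (fun ω => φ (K.S ω b)) = ∑ S, (∏ i, K.law P b i (S i)) * φ S := by
  classical
  have h1 := EE_marginal (P := P) hP1 (K.D b) (K.D_inj b)
    (fun v => φ (fun i => K.val b i (v i)))
  have h2 : EE P (fun ω => φ (K.S ω b)) =
      ∑ v : Fin n → α, (∏ j, P (K.D b j) (v j)) * φ (fun i => K.val b i (v i)) := h1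
  rw [h2]
  have h3 : ∀ S : Fin n → T, (∏ i, K.law P b i (S i)) * φ S =
      ∑ v : Fin n → α, if (fun i => K.val b i (v i)) = S then
        (∏ j, P (K.D b j) (v j)) * φ (fun i => K.val b i (v i)) else 0 := by
    intro S
    unfold law
    rw [Fintype.prod_sum, sum_mul]
    refine sum_congr rfl fun v _ => ?_
    split_ifs with h
    · rw [h]
      congr 1
      refine prod_congr rfl fun i _ => ?_
      rw [if_pos (congrFun h i)]
    · have : ∃ i, K.val b i (v i) ≠ S i := by
        by_contra hc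
        push Not at hc
        exact h (funext hc)
      obtain ⟨i, hi⟩ := this
      rw [prod_eq_zero (mem_univ i) (by rw [if_neg hi]), zero_mul]
  simp_rw [h3]
  rw [sum_comm]
  refine sum_congr rfl fun v _ => ?_
  simp

/-- The mean of a sum over all sites. -/
theorem EE_sites {P : ι → α → ℝ} (hP1 : ∀ i, ∑ a, P i a = 1) (φ : X → (Fin n → T) → ℝ) :
    EE P (fun ω => ∑ b, φ b (K.S ω b)) = ∑ b, ∑ S, (∏ i, K.law P b i (S i)) * φ b S := by
  rw [EE_sum]
  exact sum_congr rfl fun b _ => K.EE_site hP1 b (φ b)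

omit [Fintype ι] [Fintype α] [Fintype T] [DecidableEq T] in
open scoped Classical in
/-- Influence of one coordinate on a sum over all sites. -/
theorem lip (φ : X → (Fin n → T) → ℝ) (C : ℝ) (hC : 0 ≤ C) (h0 : ∀ b S, 0 ≤ φ b S)
    (h1 : ∀ b S, φ b S ≤ C) (L : ℕ)
    (hL : ∀ d, (univ.filter (fun b => ∃ i, K.D b i = d)).card ≤ L) (d : ι) (ω : ι → α) (a : α) :
    |∑ b, φ b (K.S (Function.update ω d a) b) - ∑ b, φ b (K.S ω b)| ≤ L * C := by
  rw [← sum_sub_distrib]
  have h2 : ∀ b ∉ univ.filter (fun b => ∃ i, K.D b i = d),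
      φ b (K.S (Function.update ω d a) b) - φ b (K.S ω b) = 0 := by
    intro b hb
    rw [mem_filter] at hb
    have : K.S (Function.update ω d a) b = K.S ω b := by
      funext i
      unfold S
      rw [Function.update_of_ne]
      intro h
      exact hb ⟨mem_univ b, i, h⟩
    rw [this, sub_self]
  rw [← sum_subset (subset_univ (univ.filter (fun b => ∃ i, K.D b i = d)))
    (fun b _ hb => h2 b hb)]
  refine (abs_sum_le_sum_abs _ _).trans ?_
  calc ∑ b ∈ univ.filter (fun b => ∃ i, K.D b i = d),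
        |φ b (K.S (Function.update ω d a) b) - φ b (K.S ω b)|
      ≤ ∑ b ∈ univ.filter (fun b => ∃ i, K.D b i = d), C := by
        refine sum_le_sum fun b _ => ?_
        rw [abs_le]
        have e1 := h0 b (K.S (Function.update ω d a) b)
        have e2 := h1 b (K.S (Function.update ω d a) b)
        have e3 := h0 b (K.S ω b)
        have e4 := h1 b (K.S ω b)
        constructor <;> linarith
    _ = (univ.filter (fun b => ∃ i, K.D b i = d)).card * C := by
        rw [sum_const, nsmul_eq_mul]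
    _ ≤ L * C := mul_le_mul_of_nonneg_right (by exact_mod_cast hL d) hC

end Loc

end Pool.Agent.H73.Cube
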