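import Pool.Agent.H16.Cube.McD

/-!
# Weighted bounded differences inequality on finite product spaces, helper73
(item (W) of the sqrt theorem for the spanning hypercube)
-/

set_option autoImplicit false

namespace Pool.Agent.H73.Cube

open Finset

/-- Expectation for the product of the weight functions `P i`. -/
noncomputable def EE {ι α : Type} [Fintype ι] [DecidableEq ι] [Fintype α] (P : ι → α → ℝ)
    (f : (ι → α) → ℝ) : ℝ :=
  ∑ ω, (∏ i, P i (ω i)) * f ω

section basic

variable {ι α : Type} [Fintype ι] [DecidableEq ι] [Fintype α] {P : ι → α → ℝ}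

theorem EE_total (hP1 : ∀ i, ∑ a, P i a = 1) : ∑ ω : ι → α, ∏ i, P i (ω i) = 1 := by
  rw [← Fintype.prod_sum (fun i a => P i a)]
  simp [hP1]

theorem EE_const (hP1 : ∀ i, ∑ a, P i a = 1) (c : ℝ) : EE P (fun _ => c) = c := by
  unfold EE
  rw [← sum_mul, EE_total hP1, one_mul]

theorem EE_add (f g : (ι → α) → ℝ) : EE P (fun ω => f ω + g ω) = EE P f + EE P g := by
  unfold EE
  rw [← sum_add_distrib]
  exact sum_congr rfl fun ω _ => by ring

theorem EE_sub (f g : (ι → α) → ℝ) : EE P (fun ω => f ω - g ω) = EE P f - EE P g := by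
  unfold EE
  rw [← sum_sub_distrib]
  exact sum_congr rfl fun ω _ => by ring

theorem EE_smul (c : ℝ) (f : (ι → α) → ℝ) : EE P (fun ω => c * f ω) = c * EE P f := by
  unfold EE
  rw [mul_sum]
  exact sum_congr rfl fun ω _ => by ring

theorem EE_neg (f : (ι → α) → ℝ) : EE P (fun ω => - f ω) = - EE P f := by
  unfold EE
  rw [← sum_neg_distrib]
  exact sum_congr rfl fun ω _ => by ring

theorem EE_sum {β : Type} (s : Finset β) (f : β → (ι → α) → ℝ) :
    EE P (fun ω => ∑ b ∈ s, f b ω) = ∑ b ∈ s, EE P (f b) := by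
  unfold EE
  rw [sum_comm]
  exact sum_congr rfl fun ω _ => mul_sum _ _ _

omit [DecidableEq ι] [Fintype α] in
theorem wt_nonneg (hP0 : ∀ i a, 0 ≤ P i a) (ω : ι → α) : 0 ≤ ∏ i, P i (ω i) :=
  prod_nonneg fun i _ => hP0 i _

theorem EE_mono (hP0 : ∀ i a, 0 ≤ P i a) {f g : (ι → α) → ℝ}
    (h : ∀ ω, (∀ i, P i (ω i) ≠ 0) → f ω ≤ g ω) : EE P f ≤ EE P g := by
  unfold EE
  refine sum_le_sum fun ω _ => ?_
  by_cases hz : ∏ i, P i (ω i) = 0
  · rw [hz, zero_mul, zero_mul]
  · refine mul_le_mul_of_nonneg_left (h ω fun i hi => hz ?_) (wt_nonneg hP0 ω)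
    exact prod_eq_zero (mem_univ i) hi

theorem EE_nonneg (hP0 : ∀ i a, 0 ≤ P i a) {f : (ι → α) → ℝ} (h : ∀ ω, 0 ≤ f ω) :
    0 ≤ EE P f := by
  unfold EE
  exact sum_nonneg fun ω _ => mul_nonneg (wt_nonneg hP0 ω) (h ω)

/-- A point with positive weight where `f` is at most (resp. at least) its expectation; in the
form of a union bound: if `f` has expectation less than one and is nonnegative, some point of
positive weight has `f < 1`. -/
theorem exists_lt_one (hP0 : ∀ i a, 0 ≤ P i a) (hP1 : ∀ i, ∑ a, P i a = 1)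
    (f : (ι → α) → ℝ) (hf : EE P f < 1) : ∃ ω, (∀ i, 0 < P i (ω i)) ∧ f ω < 1 := by
  by_contra hc
  push Not at hc
  have h : EE P (fun _ => (1:ℝ)) ≤ EE P f := by
    refine EE_mono hP0 fun ω hω => hc ω fun i => ?_
    exact lt_of_le_of_ne (hP0 i _) (hω i).symm
  rw [EE_const hP1] at h
  linarith

end basic

theorem sum_exp_leW {α : Type} [Fintype α] (p h : α → ℝ) (c : ℝ) (hc : 0 ≤ c)
    (hp0 : ∀ a, 0 ≤ p a) (hp1 : ∑ a, p a = 1)
    (h0 : ∑ a, p a * h a = 0) (hh : ∀ a, |h a| ≤ c) :
    ∑ a, p a * Real.exp (h a) ≤ Real.exp (c ^ 2 / 2) := by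
  rcases eq_or_lt_of_le hc with hc0 | hc0
  · have : ∀ a, h a = 0 := by
      intro a
      have := hh a
      rw [← hc0] at this
      exact abs_nonpos_iff.mp this
    simp [this, ← hc0, hp1]
  · calc ∑ a, p a * Real.exp (h a)
        ≤ ∑ a, p a * (Real.cosh c + (h a / c) * Real.sinh c) :=
          sum_le_sum (fun a _ => mul_le_mul_of_nonneg_left
            (Pool.Agent.H16.Cube.exp_le_of_abs_le hc0 (hh a)) (hp0 a))
      _ = (∑ a, p a) * Real.cosh c + (∑ a, p a * h a) * (Real.sinh c / c) := by
          rw [sum_mul, sum_mul, ← sum_add_distrib]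
          apply sum_congr rfl
          intro a _
          ring
      _ = Real.cosh c := by rw [h0, hp1]; ring
      _ ≤ _ := Real.cosh_le_exp_half_sq c

theorem mcdW_fin {α : Type} [Fintype α] (m : ℕ) :
    ∀ (P : Fin m → α → ℝ) (f : (Fin m → α) → ℝ) (c : Fin m → ℝ),
      (∀ i a, 0 ≤ P i a) → (∀ i, ∑ a, P i a = 1) → (∀ i, 0 ≤ c i) →
      (∀ i ω a, |f (Function.update ω i a) - f ω| ≤ c i) →
      EE P (fun ω => Real.exp (f ω - EE P f)) ≤ Real.exp ((∑ i, c i ^ 2) / 2) := by
  classical
  induction m with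
  | zero =>
    intro P f c _ _ _ _
    unfold EE
    rw [Fintype.sum_unique, Fintype.sum_unique]
    simp
  | succ m ih =>
    intro P f c hP0 hP1 hc hf
    let g : (Fin m → α) → ℝ := fun x => ∑ a, P 0 a * f (Fin.cons a x)
    let P' : Fin m → α → ℝ := fun i => P i.succ
    have hsum : ∀ F : (Fin (m + 1) → α) → ℝ,
        EE P F = EE P' (fun x => ∑ a : α, P 0 a * F (Fin.cons a x)) := by
      intro F
      unfold EE
      rw [← (Fin.consEquiv (fun _ : Fin (m + 1) => α)).sum_comp, Fintype.sum_prod_type_right]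
      refine sum_congr rfl fun x _ => ?_
      rw [mul_sum]
      refine sum_congr rfl fun a _ => ?_
      have e : (Fin.consEquiv (fun _ : Fin (m + 1) => α)) (a, x) = Fin.cons a x := rfl
      rw [e, Fin.prod_univ_succ]
      simp only [Fin.cons_zero, Fin.cons_succ, P']
      ring
    have hgavg : EE P' g = EE P f := (hsum f).symm
    have hgL : ∀ (i : Fin m) (x : Fin m → α) (a : α),
        |g (Function.update x i a) - g x| ≤ c i.succ := by
      intro i x a
      have h1 : g (Function.update x i a) - g x =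
          ∑ b, P 0 b * (f (Function.update (Fin.cons b x : Fin (m + 1) → α) i.succ a) -
            f (Fin.cons b x)) := by
        simp only [g]
        rw [← sum_sub_distrib]
        apply sum_congr rfl
        intro b _
        rw [Fin.cons_update]
        ring
      rw [h1]
      calc |∑ b, P 0 b * (f (Function.update (Fin.cons b x : Fin (m + 1) → α) i.succ a) -
            f (Fin.cons b x))|
          ≤ ∑ b, |P 0 b * (f (Function.update (Fin.cons b x : Fin (m + 1) → α) i.succ a) -
            f (Fin.cons b x))| := abs_sum_le_sum_abs _ _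
        _ ≤ ∑ b : α, P 0 b * c i.succ := by
            refine sum_le_sum fun b _ => ?_
            rw [abs_mul, abs_of_nonneg (hP0 0 b)]
            exact mul_le_mul_of_nonneg_left (hf _ _ _) (hP0 0 b)
        _ = c i.succ := by rw [← sum_mul, hP1, one_mul]
    have hinner : ∀ x : Fin m → α, ∑ a, P 0 a * Real.exp (f (Fin.cons a x) - g x) ≤
        Real.exp (c 0 ^ 2 / 2) := by
      intro x
      apply sum_exp_leW _ _ _ (hc 0) (hP0 0) (hP1 0)
      · simp only [g, mul_sub]
        rw [sum_sub_distrib, ← sum_mul, hP1, one_mul, sub_self]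
      · intro a
        have h1 : f (Fin.cons a x) - g x =
            ∑ b, P 0 b * (f (Fin.cons a x) - f (Fin.cons b x)) := by
          simp only [g, mul_sub]
          rw [sum_sub_distrib, ← sum_mul, hP1, one_mul]
        rw [h1]
        calc |∑ b, P 0 b * (f (Fin.cons a x) - f (Fin.cons b x))|
            ≤ ∑ b, |P 0 b * (f (Fin.cons a x) - f (Fin.cons b x))| := abs_sum_le_sum_abs _ _
          _ ≤ ∑ b : α, P 0 b * c 0 := by
              apply sum_le_sum
              intro b _
              rw [abs_mul, abs_of_nonneg (hP0 0 b)]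
              refine mul_le_mul_of_nonneg_left ?_ (hP0 0 b)
              have h2 : (Fin.cons a x : Fin (m + 1) → α) =
                  Function.update (Fin.cons b x : Fin (m + 1) → α) 0 a := by
                rw [Fin.update_cons_zero]
              rw [h2]
              exact hf _ _ _
          _ = c 0 := by rw [← sum_mul, hP1, one_mul]
    have hih := ih P' g (fun i => c i.succ) (fun i a => hP0 _ a) (fun i => hP1 _)
      (fun i => hc _) hgL
    rw [hsum (fun ω => Real.exp (f ω - EE P f))]
    calc EE P' (fun x => ∑ a : α, P 0 a * Real.exp (f (Fin.cons a x) - EE P f))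
        = EE P' (fun x => (∑ a : α, P 0 a * Real.exp (f (Fin.cons a x) - g x)) *
            Real.exp (g x - EE P' g)) := by
          congr 1
          funext x
          rw [sum_mul]
          refine sum_congr rfl fun a _ => ?_
          rw [mul_assoc, ← Real.exp_add, hgavg]
          congr 2
          ring
      _ ≤ EE P' (fun x => Real.exp (c 0 ^ 2 / 2) * Real.exp (g x - EE P' g)) :=
          EE_mono (fun i a => hP0 _ a)
            (fun x _ => mul_le_mul_of_nonneg_right (hinner x) (Real.exp_pos _).le)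
      _ = Real.exp (c 0 ^ 2 / 2) * EE P' (fun x => Real.exp (g x - EE P' g)) := EE_smul _ _
      _ ≤ Real.exp (c 0 ^ 2 / 2) * Real.exp ((∑ i : Fin m, c i.succ ^ 2) / 2) :=
          mul_le_mul_of_nonneg_left hih (Real.exp_pos _).le
      _ = _ := by
          rw [Fin.sum_univ_succ, add_div, Real.exp_add]

section general

variable {ι α : Type} [Fintype ι] [DecidableEq ι] [Fintype α] {P : ι → α → ℝ}

/-- Weighted bounded differences, exponential moment. -/
theorem mcdW (hP0 : ∀ i a, 0 ≤ P i a) (hP1 : ∀ i, ∑ a, P i a = 1)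
    (f : (ι → α) → ℝ) (c : ι → ℝ) (hc : ∀ i, 0 ≤ c i)
    (hf : ∀ i ω a, |f (Function.update ω i a) - f ω| ≤ c i) :
    EE P (fun ω => Real.exp (f ω - EE P f)) ≤ Real.exp ((∑ i, c i ^ 2) / 2) := by
  classical
  let e := Fintype.equivFin ι
  let E : (Fin (Fintype.card ι) → α) ≃ (ι → α) := Equiv.arrowCongr e.symm (Equiv.refl α)
  have hE : ∀ x i, E x i = x (e i) := by intro x i; simp [E]
  let P' : Fin (Fintype.card ι) → α → ℝ := fun i => P (e.symm i)
  have hEE : ∀ F : (ι → α) → ℝ, EE P' (fun x => F (E x)) = EE P F := by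
    intro F
    unfold EE
    rw [← E.sum_comp (fun ω => (∏ i, P i (ω i)) * F ω)]
    refine sum_congr rfl fun x _ => ?_
    congr 1
    rw [← e.symm.prod_comp (fun i => P i (E x i))]
    refine prod_congr rfl fun i _ => ?_
    rw [hE]
    simp [P']
  have h := mcdW_fin (Fintype.card ι) P' (fun x => f (E x)) (fun i => c (e.symm i))
    (fun i a => hP0 _ a) (fun i => hP1 _) (fun i => hc _) (by
      intro i x a
      have h1 : E (Function.update x i a) = Function.update (E x) (e.symm i) a := by
        funext j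
        rw [hE]
        by_cases hj : j = e.symm i
        · subst hj; simp
        · have : e j ≠ i := by
            intro h; exact hj (by rw [← h]; simp)
          rw [Function.update_of_ne this, Function.update_of_ne hj, hE]
      rw [h1]
      exact hf _ _ _)
  have hs : ∑ i : Fin (Fintype.card ι), c (e.symm i) ^ 2 = ∑ i, c i ^ 2 :=
    e.symm.sum_comp (fun i => c i ^ 2)
  rw [hEE, hs] at h
  rw [← hEE (fun ω => Real.exp (f ω - EE P f))]
  exact h

open scoped Classical in
/-- Upper tail. -/
theorem mcdW_upper (hP0 : ∀ i a, 0 ≤ P i a) (hP1 : ∀ i, ∑ a, P i a = 1)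
    (f : (ι → α) → ℝ) (c : ι → ℝ) (hc : ∀ i, 0 ≤ c i)
    (hf : ∀ i ω a, |f (Function.update ω i a) - f ω| ≤ c i) (t V : ℝ) (ht : 0 ≤ t)
    (hV : 0 < V) (hcV : ∑ i, c i ^ 2 ≤ V) :
    EE P (fun ω => if EE P f + t ≤ f ω then 1 else 0) ≤ Real.exp (-(t ^ 2 / (2 * V))) := by
  set l : ℝ := t / V with hl
  have hl0 : 0 ≤ l := div_nonneg ht hV.le
  have h := mcdW hP0 hP1 (fun ω => l * f ω) (fun i => l * c i)
    (fun i => mul_nonneg hl0 (hc i)) (by
    intro i ω a
    rw [← mul_sub, abs_mul, abs_of_nonneg hl0]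
    exact mul_le_mul_of_nonneg_left (hf i ω a) hl0)
  rw [EE_smul] at h
  have h1 : Real.exp (l * t) * EE P (fun ω => if EE P f + t ≤ f ω then 1 else 0) ≤
      EE P (fun ω => Real.exp (l * f ω - l * EE P f)) := by
    rw [← EE_smul]
    refine EE_mono hP0 fun ω _ => ?_
    split_ifs with hω
    · rw [mul_one]
      apply Real.exp_le_exp.mpr
      rw [← mul_sub]
      exact mul_le_mul_of_nonneg_left (by linarith) hl0
    · rw [mul_zero]
      exact (Real.exp_pos _).le
  have h2 : (∑ i, (l * c i) ^ 2) / 2 ≤ l ^ 2 * V / 2 := by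
    have : ∑ i, (l * c i) ^ 2 = l ^ 2 * ∑ i, c i ^ 2 := by
      rw [mul_sum]
      apply sum_congr rfl
      intro i _
      ring
    rw [this]
    have := mul_le_mul_of_nonneg_left hcV (sq_nonneg l)
    linarith
  have h3 : Real.exp (l * t) * EE P (fun ω => if EE P f + t ≤ f ω then 1 else 0) ≤
      Real.exp (l ^ 2 * V / 2) :=
    h1.trans (h.trans (Real.exp_le_exp.mpr h2))
  have h4 : l ^ 2 * V / 2 = l * t + -(t ^ 2 / (2 * V)) := by
    rw [hl]; field_simp; ring
  rw [h4, Real.exp_add] at h3
  exact le_of_mul_le_mul_left h3 (Real.exp_pos (l * t))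

open scoped Classical in
/-- Lower tail. -/
theorem mcdW_lower (hP0 : ∀ i a, 0 ≤ P i a) (hP1 : ∀ i, ∑ a, P i a = 1)
    (f : (ι → α) → ℝ) (c : ι → ℝ) (hc : ∀ i, 0 ≤ c i)
    (hf : ∀ i ω a, |f (Function.update ω i a) - f ω| ≤ c i) (t V : ℝ) (ht : 0 ≤ t)
    (hV : 0 < V) (hcV : ∑ i, c i ^ 2 ≤ V) :
    EE P (fun ω => if f ω ≤ EE P f - t then 1 else 0) ≤ Real.exp (-(t ^ 2 / (2 * V))) := by
  have h := mcdW_upper hP0 hP1 (fun ω => - f ω) c hc (by
    intro i ω a
    rw [neg_sub_neg, abs_sub_comm]
    exact hf i ω a) t V ht hV hcV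
  rw [EE_neg] at h
  refine le_trans (le_of_eq ?_) h
  unfold EE
  refine sum_congr rfl fun ω _ => ?_
  congr 1
  refine if_congr ?_ rfl rfl
  constructor <;> intro h' <;> linarith

/-- Marginals: a function of distinct coordinates. -/
theorem EE_marginal (hP1 : ∀ i, ∑ a, P i a = 1) {n : ℕ} (D : Fin n → ι)
    (hD : Function.Injective D) (F : (Fin n → α) → ℝ) :
    EE P (fun ω => F (fun j => ω (D j))) = ∑ v : Fin n → α, (∏ j, P (D j) (v j)) * F v := by
  classical
  have key : ∀ v : Fin n → α,
      EE P (fun ω => if (fun j => ω (D j)) = v then 1 else 0) = ∏ j, P (D j) (v j) := by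
    intro v
    -- the factor of coordinate `i`
    let q : ι → α → ℝ := fun i a => if h : ∃ j, D j = i then (if a = v h.choose then P i a else 0)
      else P i a
    have hq : ∀ j, ∀ a, q (D j) a = if a = v j then P (D j) a else 0 := by
      intro j a
      have hex : ∃ j', D j' = D j := ⟨j, rfl⟩
      simp only [q]
      rw [dif_pos hex]
      have : hex.choose = j := hD hex.choose_spec
      rw [this]
    have h1 : EE P (fun ω => if (fun j => ω (D j)) = v then 1 else 0) =
        ∑ ω : ι → α, ∏ i, q i (ω i) := by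
      unfold EE
      refine sum_congr rfl fun ω _ => ?_
      show (∏ i, P i (ω i)) * (if (fun j => ω (D j)) = v then 1 else 0) = ∏ i, q i (ω i)
      split_ifs with h
      · rw [mul_one]
        refine prod_congr rfl fun i _ => ?_
        by_cases hi : ∃ j, D j = i
        · obtain ⟨j, rfl⟩ := hi
          rw [hq, if_pos (congrFun h j)]
        · simp only [q]
          rw [dif_neg hi]
      · rw [mul_zero]
        have : ∃ j, ω (D j) ≠ v j := by
          by_contra hc
          push Not at hc
          exact h (funext hc)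
        obtain ⟨j, hj⟩ := this
        symm
        refine prod_eq_zero (mem_univ (D j)) ?_
        rw [hq, if_neg hj]
    rw [h1, ← Fintype.prod_sum (fun i a => q i a)]
    have h2 : ∀ i, i ∉ univ.image D → ∑ a, q i a = 1 := by
      intro i hi
      have hi' : ¬ ∃ j, D j = i := fun ⟨j, hj⟩ => hi (mem_image.2 ⟨j, mem_univ j, hj⟩)
      rw [← hP1 i]
      refine sum_congr rfl fun a _ => ?_
      simp only [q]
      rw [dif_neg hi']
    rw [← prod_subset (subset_univ (univ.image D)) (fun i _ hi => h2 i hi),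
      prod_image (fun a _ b _ h => hD h)]
    refine prod_congr rfl fun j _ => ?_
    simp_rw [hq]
    simp
  have h3 : EE P (fun ω => F (fun j => ω (D j))) =
      EE P (fun ω => ∑ v : Fin n → α, F v * (if (fun j => ω (D j)) = v then 1 else 0)) := by
    unfold EE
    refine sum_congr rfl fun ω _ => ?_
    congr 1
    simp
  rw [h3, EE_sum]
  refine sum_congr rfl fun v _ => ?_
  rw [EE_smul, key v, mul_comm]

end general

end Pool.Agent.H73.Cube
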