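import Mathlib

/-!
# Random valid permutations (lemma (M) of the sqrt theorem for the spanning hypercube), helper73
-/

set_option autoImplicit false

namespace Pool.Agent.H73.Cube

open Finset

variable {R : Type} [Fintype R] [DecidableEq R]

/-- The permutations with values in prescribed sets. -/
def validP (A : R → Finset R) : Finset (Equiv.Perm R) := univ.filter (fun π => ∀ r, π r ∈ A r)

theorem mem_validP {A : R → Finset R} {π : Equiv.Perm R} :
    π ∈ validP A ↔ ∀ r, π r ∈ A r := by simp [validP]

variable {A : R → Finset R}

theorem validP_nonempty (h1 : ∀ r, 4 * ((A r)ᶜ).card ≤ Fintype.card R)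
    (h2 : ∀ t, 4 * (univ.filter (fun r => t ∉ A r)).card ≤ Fintype.card R) :
    (validP A).Nonempty := by
  have hall : ∀ B : Finset R, B.card ≤ (B.biUnion A).card := by
    intro B
    rcases B.eq_empty_or_nonempty with rfl | ⟨r, hr⟩
    · simp
    · by_cases hB : 4 * B.card ≤ 3 * Fintype.card R
      · have h3 : (A r).card ≤ (B.biUnion A).card :=
          card_le_card (subset_biUnion_of_mem A hr)
        have h4 := h1 r
        have h5 : ((A r)ᶜ).card + (A r).card = Fintype.card R := by
          rw [card_compl]
          have := card_le_univ (A r)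
          omega
        omega
      · have h3 : B.biUnion A = univ := by
          rw [eq_univ_iff_forall]
          intro t
          by_contra ht
          have h4 : B ⊆ univ.filter (fun r => t ∉ A r) := by
            intro r hr
            rw [mem_filter]
            exact ⟨mem_univ r, fun h => ht (mem_biUnion.2 ⟨r, hr, h⟩)⟩
          have h5 := card_le_card h4
          have h6 := h2 t
          omega
        rw [h3]
        exact card_le_univ B
  obtain ⟨f, hf, hA⟩ := (Finset.all_card_le_biUnion_card_iff_exists_injective A).1 hall
  refine ⟨Equiv.ofBijective f (Finite.injective_iff_bijective.1 hf), ?_⟩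
  rw [mem_validP]
  intro r
  exact hA r

/-- A prescribed value is taken by at most a `2 / s` fraction of the valid permutations. -/
theorem validP_card_le (h1 : ∀ r, 4 * ((A r)ᶜ).card ≤ Fintype.card R)
    (h2 : ∀ t, 4 * (univ.filter (fun r => t ∉ A r)).card ≤ Fintype.card R) (r0 t0 : R) :
    ((validP A).filter (fun π => π r0 = t0)).card * Fintype.card R ≤ 2 * (validP A).card := by
  classical
  set N := (validP A).filter (fun π => π r0 = t0) with hN
  -- admissible second positions
  let adm : Equiv.Perm R → Finset R := fun π => univ.filter (fun r => π r ∈ A r0 ∧ t0 ∈ A r)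
  have hadm : ∀ π : Equiv.Perm R, Fintype.card R ≤ 2 * (adm π).card := by
    intro π
    have e1 : (adm π)ᶜ ⊆ ((A r0)ᶜ).image π.symm ∪ univ.filter (fun r => t0 ∉ A r) := by
      intro r hr
      simp only [adm, mem_compl, mem_filter, mem_univ, true_and, not_and_or] at hr
      rw [mem_union]
      rcases hr with hr | hr
      · left
        rw [mem_image]
        exact ⟨π r, by simpa using hr, by simp⟩
      · right
        simpa using hr
    have e2 := (card_le_card e1).trans (card_union_le _ _)
    have e3 : (((A r0)ᶜ).image π.symm).card ≤ ((A r0)ᶜ).card := card_image_le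
    have e4 := h1 r0
    have e5 := h2 t0
    have e6 : ((adm π)ᶜ).card + (adm π).card = Fintype.card R := by
      rw [card_compl]
      have := card_le_univ (adm π)
      omega
    omega
  -- the switching map
  let S : Finset (Equiv.Perm R × R) := N.biUnion (fun π => (adm π).image (fun r => (π, r)))
  have hmemS : ∀ x : Equiv.Perm R × R, x ∈ S ↔ x.1 ∈ N ∧ x.2 ∈ adm x.1 := by
    intro x
    simp only [S, mem_biUnion, mem_image]
    constructor
    · rintro ⟨π, hπ, r, hr, rfl⟩
      exact ⟨hπ, hr⟩
    · rintro ⟨ha, hb⟩
      exact ⟨x.1, ha, x.2, hb, rfl⟩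
  have hS : S.card = ∑ π ∈ N, (adm π).card := by
    rw [card_biUnion]
    · refine sum_congr rfl fun π _ => card_image_of_injective _ ?_
      intro r r' h
      exact (Prod.mk.inj h).2
    · intro π _ π' _ hne
      rw [Function.onFun, disjoint_left]
      intro x hx hx'
      simp only [mem_image] at hx hx'
      obtain ⟨r, _, rfl⟩ := hx
      obtain ⟨r', _, h'⟩ := hx'
      exact hne (Prod.mk.inj h').1.symm
  have hmap : S.card ≤ (validP A).card := by
    refine card_le_card_of_injOn (fun x => x.1 * Equiv.swap r0 x.2) ?_ ?_
    · intro x hx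
      rw [mem_coe, hmemS] at hx
      obtain ⟨hx1, hx2⟩ := hx
      rw [hN, mem_filter, mem_validP] at hx1
      simp only [adm, mem_filter, mem_univ, true_and] at hx2
      rw [mem_coe, mem_validP]
      intro r
      rw [Equiv.Perm.mul_apply]
      by_cases ha : r = r0
      · subst ha
        rw [Equiv.swap_apply_left]
        exact hx2.1
      · by_cases hb : r = x.2
        · rw [hb, Equiv.swap_apply_right, hx1.2]
          exact hx2.2
        · rw [Equiv.swap_apply_of_ne_of_ne ha hb]
          exact hx1.1 r
    · intro x hx x' hx' h
      rw [mem_coe, hmemS] at hx hx'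
      have hx1 := hx.1
      have hx1' := hx'.1
      rw [hN, mem_filter] at hx1 hx1'
      simp only at h
      have k1 : (x.1 * Equiv.swap r0 x.2) x.2 = t0 := by
        rw [Equiv.Perm.mul_apply, Equiv.swap_apply_right, hx1.2]
      have k2 : (x'.1 * Equiv.swap r0 x'.2) x'.2 = t0 := by
        rw [Equiv.Perm.mul_apply, Equiv.swap_apply_right, hx1'.2]
      have k3 : x.2 = x'.2 := by
        apply (x.1 * Equiv.swap r0 x.2).injective
        rw [k1]
        conv_rhs => rw [h]
        exact k2.symm
      rw [k3] at h
      have k4 : x.1 = x'.1 := mul_right_cancel h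
      exact Prod.ext k4 k3
  have hsum : N.card * Fintype.card R ≤ 2 * ∑ π ∈ N, (adm π).card := by
    rw [mul_sum, ← smul_eq_mul]
    exact card_nsmul_le_sum _ _ _ fun π _ => hadm π
  calc N.card * Fintype.card R ≤ 2 * S.card := by rw [hS]; exact hsum
    _ ≤ 2 * (validP A).card := Nat.mul_le_mul_left 2 hmap

end Pool.Agent.H73.Cube
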