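import Pool.Agent.H16.Cube.Prob
import Pool.Agent.H73.Cube.Bayes
import Pool.Agent.H73.Cube.PermL
import Pool.Agent.H73.Cube.Local

/-!
# Seeds: the laws of the fillings of the cells given the seeds of the regions, helper73
-/

set_option autoImplicit false
set_option linter.unusedSectionVars false

namespace Pool.Agent.H73.Cube

open Finset
open Pool.Agent.H16.Cube (BC)

/-- Cells with their regions. -/
structure Geom (Q R G : Type) [Fintype Q] [DecidableEq Q] [Fintype R] (n : ℕ) where
  K : BC Q R n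
  co : Q → R
  sh_co : ∀ x, K.sh (co x) (K.pr x) = x
  reg : Q → G
  N : G → Finset G
  reg_mem : ∀ i b, reg b ∈ N (reg (K.nbr i b))
  uniq : ∀ d r r' g, g ∈ N (reg (K.sh r d)) → g ∈ N (reg (K.sh r' d)) → r = r'

namespace Geom

variable {Q R G : Type} [Fintype Q] [DecidableEq Q] [Fintype R] [DecidableEq R] [Fintype G]
  [DecidableEq G] {n : ℕ} (Z : Geom Q R G n) (adj : Q → Q → Prop)

/-- Odd positions (sites) and odd vertices. -/
abbrev Od : Type := {b : Q // b ∈ Z.K.O}

/-- The cells of the neighbours of a site and the values which it sees. -/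
def loc : Loc Q (Equiv.Perm R) Z.Od R n where
  D b i := Z.K.pr (Z.K.nbr i b.1)
  D_inj b i j h := by
    by_contra hne
    exact Z.K.pr_nbr b.1 i j hne h
  val b i π := π (Z.co (Z.K.nbr i b.1))

theorem at_co (b : Z.Od) (i : Fin n) :
    Z.K.sh (Z.co (Z.K.nbr i b.1)) (Z.loc.D b i) = Z.K.nbr i b.1 := Z.sh_co _

/-- The vertex `v` is compatible with both seeds. -/
def okv (p : Z.Od × Z.Od) (v : Q) : Prop := ¬ adj p.1.1 v ∧ ¬ adj p.2.1 v

open scoped Classical in
/-- The vertices of the cell `d` allowed at the position `r`, for the seeds of the regions not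
in `e`. -/
noncomputable def As (e : Finset G) (σ : G → Z.Od × Z.Od) (d : Q) (r : R) : Finset R :=
  univ.filter (fun t => ∀ g ∈ Z.N (Z.reg (Z.K.sh r d)), g ∉ e → Z.okv adj (σ g) (Z.K.sh t d))

open scoped Classical in
/-- The valid fillings of the cell `d`. -/
noncomputable def V (e : Finset G) (σ : G → Z.Od × Z.Od) (d : Q) : Finset (Equiv.Perm R) :=
  if ∀ t, 4 * (univ.filter (fun r => t ∉ Z.As adj e σ d r)).card ≤ Fintype.card R then
    validP (Z.As adj e σ d) else univ

/-- The uniform law on the valid fillings. -/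
noncomputable def P (e : Finset G) (σ : G → Z.Od × Z.Od) (d : Q) (π : Equiv.Perm R) : ℝ :=
  if π ∈ Z.V adj e σ d then ((Z.V adj e σ d).card : ℝ)⁻¹ else 0

variable {Z adj}

/-- The standing assumption: few vertices of a cell are forbidden at a position. -/
def Few (Z : Geom Q R G n) (adj : Q → Q → Prop) : Prop :=
  ∀ e σ d r, 4 * ((Z.As adj e σ d r)ᶜ).card ≤ Fintype.card R

theorem V_cases (hF : Few Z adj) (e : Finset G) (σ : G → Z.Od × Z.Od) (d : Q) :
    ∃ A : R → Finset R, Z.V adj e σ d = validP A ∧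
      (∀ r, 4 * ((A r)ᶜ).card ≤ Fintype.card R) ∧
      (∀ t, 4 * (univ.filter (fun r => t ∉ A r)).card ≤ Fintype.card R) := by
  classical
  unfold V
  split_ifs with h
  · exact ⟨Z.As adj e σ d, rfl, hF e σ d, fun t => by convert h t⟩
  · refine ⟨fun _ => univ, ?_, by simp, by simp⟩
    ext π
    simp [mem_validP]

theorem V_nonempty (hF : Few Z adj) (e : Finset G) (σ : G → Z.Od × Z.Od) (d : Q) :
    (Z.V adj e σ d).Nonempty := by
  obtain ⟨A, h, h1, h2⟩ := V_cases hF e σ d
  rw [h]
  exact validP_nonempty h1 h2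

theorem V_spread (hF : Few Z adj) (e : Finset G) (σ : G → Z.Od × Z.Od) (d : Q) (r t : R) :
    ((Z.V adj e σ d).filter (fun π => π r = t)).card * Fintype.card R ≤
      2 * (Z.V adj e σ d).card := by
  obtain ⟨A, h, h1, h2⟩ := V_cases hF e σ d
  rw [h]
  exact validP_card_le h1 h2 r t

theorem P_nonneg (e : Finset G) (σ : G → Z.Od × Z.Od) (d : Q) (π : Equiv.Perm R) :
    0 ≤ Z.P adj e σ d π := by
  unfold P
  split_ifs
  · positivity
  · exact le_rfl

theorem P_sum (hF : Few Z adj) (e : Finset G) (σ : G → Z.Od × Z.Od) (d : Q) :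
    ∑ π, Z.P adj e σ d π = 1 := by
  classical
  unfold P
  rw [← sum_filter, sum_const, nsmul_eq_mul]
  have h1 : univ.filter (fun π => π ∈ Z.V adj e σ d) = Z.V adj e σ d := by ext; simp
  rw [h1]
  have h2 : ((Z.V adj e σ d).card : ℝ) ≠ 0 := by
    have := card_pos.2 (V_nonempty hF e σ d)
    positivity
  exact mul_inv_cancel₀ h2

theorem law_eq (e : Finset G) (σ : G → Z.Od × Z.Od) (b : Z.Od) (i : Fin n) (t : R) :
    Z.loc.law (Z.P adj e σ) b i t =
      (((Z.V adj e σ (Z.loc.D b i)).filter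
        (fun π => π (Z.co (Z.K.nbr i b.1)) = t)).card : ℝ) *
        ((Z.V adj e σ (Z.loc.D b i)).card : ℝ)⁻¹ := by
  classical
  unfold Loc.law P
  have h1 : ∀ π : Equiv.Perm R, (if Z.loc.val b i π = t then
      (if π ∈ Z.V adj e σ (Z.loc.D b i) then ((Z.V adj e σ (Z.loc.D b i)).card : ℝ)⁻¹ else 0)
      else 0) =
      if π ∈ (Z.V adj e σ (Z.loc.D b i)).filter (fun π => π (Z.co (Z.K.nbr i b.1)) = t) then
        ((Z.V adj e σ (Z.loc.D b i)).card : ℝ)⁻¹ else 0 := by
    intro π
    by_cases ha : Z.loc.val b i π = t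
    · have ha' : π (Z.co (Z.K.nbr i b.1)) = t := ha
      by_cases hb : π ∈ Z.V adj e σ (Z.loc.D b i)
      · rw [if_pos ha, if_pos hb, if_pos (mem_filter.2 ⟨hb, ha'⟩)]
      · rw [if_pos ha, if_neg hb, if_neg (fun h => hb (mem_filter.1 h).1)]
    · have ha' : ¬ π (Z.co (Z.K.nbr i b.1)) = t := ha
      have hc : ¬ π ∈ (Z.V adj e σ (Z.loc.D b i)).filter
          (fun π => π (Z.co (Z.K.nbr i b.1)) = t) := fun h => ha' (mem_filter.1 h).2
      rw [if_neg ha, if_neg hc]
  simp_rw [h1]
  rw [← sum_filter, sum_const, nsmul_eq_mul]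
  congr 2
  congr 1
  ext π
  simp

theorem law_nonneg' (e : Finset G) (σ : G → Z.Od × Z.Od) (b : Z.Od) (i : Fin n) (t : R) :
    0 ≤ Z.loc.law (Z.P adj e σ) b i t := Z.loc.law_nonneg (fun d π => P_nonneg e σ d π) b i t

theorem law_sum' (hF : Few Z adj) (e : Finset G) (σ : G → Z.Od × Z.Od) (b : Z.Od) (i : Fin n) :
    ∑ t, Z.loc.law (Z.P adj e σ) b i t = 1 := Z.loc.law_sum (fun d => P_sum hF e σ d) b i

theorem law_le (hF : Few Z adj) (e : Finset G) (σ : G → Z.Od × Z.Od) (b : Z.Od) (i : Fin n)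
    (t : R) : Z.loc.law (Z.P adj e σ) b i t ≤ 2 / Fintype.card R := by
  have hR : (0:ℝ) < Fintype.card R := by exact_mod_cast Fintype.card_pos_iff.2 ⟨t⟩
  have hV : (0:ℝ) < (Z.V adj e σ (Z.loc.D b i)).card := by
    exact_mod_cast card_pos.2 (V_nonempty hF e σ _)
  rw [law_eq, ← div_eq_mul_inv, div_le_div_iff₀ hV hR]
  exact_mod_cast V_spread hF e σ (Z.loc.D b i) (Z.co (Z.K.nbr i b.1)) t

variable (Z adj)

/-- The posterior data of a site: the laws given the seeds of the other regions. -/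
noncomputable def bay (hF : Few Z adj) (σ : G → Z.Od × Z.Od) (b : Z.Od) : Bay Z.Od R n where
  p i t := Z.loc.law (Z.P adj {Z.reg b.1} σ) b i t
  p_nonneg i t := law_nonneg' _ σ b i t
  p_sum i := law_sum' hF _ σ b i
  ok i y t := ¬ adj y.1 (Z.K.sh t (Z.loc.D b i))

open scoped Classical in
/-- The odd vertices compatible with what the site sees. -/
noncomputable def Gm (b : Z.Od) (S : Fin n → R) : Finset Z.Od :=
  univ.filter (fun y => ∀ i, ¬ adj y.1 (Z.K.sh (S i) (Z.loc.D b i)))

variable {Z adj}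

theorem bay_Gam (hF : Few Z adj) (σ : G → Z.Od × Z.Od) (b : Z.Od) (S : Fin n → R) :
    (Z.bay adj hF σ b).Gam S = Z.Gm adj b S := by
  classical
  ext y
  rw [Bay.mem_Gam]
  unfold Gm
  rw [mem_filter]
  exact ⟨fun h => ⟨mem_univ _, h⟩, fun h => h.2⟩

open scoped Classical in
/-- A site is robust if for the seeds of the other regions the cells of its neighbours are far
from the exceptional case. -/
def Rob (Z : Geom Q R G n) (adj : Q → Q → Prop) (σ : G → Z.Od × Z.Od) (b : Z.Od) : Prop :=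
  ∀ i t, 8 * (univ.filter (fun r => t ∉ Z.As adj {Z.reg b.1} σ (Z.loc.D b i) r)).card ≤
    Fintype.card R

theorem mem_As {e : Finset G} {σ : G → Z.Od × Z.Od} {d : Q} {r t : R} :
    t ∈ Z.As adj e σ d r ↔
      ∀ g ∈ Z.N (Z.reg (Z.K.sh r d)), g ∉ e → Z.okv adj (σ g) (Z.K.sh t d) := by
  classical
  simp [As]

/-- Locality: seeds of regions which do not see the cell are irrelevant. -/
theorem As_update_of_not_mem (e : Finset G) (σ : G → Z.Od × Z.Od) (d : Q) (g : G)
    (p : Z.Od × Z.Od) (hg : g ∈ e ∨ ∀ r, g ∉ Z.N (Z.reg (Z.K.sh r d))) :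
    Z.As adj e (Function.update σ g p) d = Z.As adj e σ d := by
  funext r
  ext t
  rw [mem_As, mem_As]
  refine forall_congr' fun g' => forall_congr' fun hg' => forall_congr' fun he => ?_
  rw [Function.update_of_ne]
  rintro rfl
  rcases hg with h | h
  · exact he h
  · exact h r hg'

theorem V_congr {e e' : Finset G} {σ σ' : G → Z.Od × Z.Od} {d : Q}
    (h : Z.As adj e σ d = Z.As adj e' σ' d) : Z.V adj e σ d = Z.V adj e' σ' d := by
  unfold V
  rw [h]

theorem P_congr {e e' : Finset G} {σ σ' : G → Z.Od × Z.Od} {d : Q}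
    (h : Z.As adj e σ d = Z.As adj e' σ' d) : Z.P adj e σ d = Z.P adj e' σ' d := by
  unfold P
  rw [V_congr h]

theorem law_congr {e e' : Finset G} {σ σ' : G → Z.Od × Z.Od} {b : Z.Od} {i : Fin n}
    (h : Z.As adj e σ (Z.loc.D b i) = Z.As adj e' σ' (Z.loc.D b i)) (t : R) :
    Z.loc.law (Z.P adj e σ) b i t = Z.loc.law (Z.P adj e' σ') b i t := by
  unfold Loc.law
  rw [P_congr h]

theorem bay_update (hF : Few Z adj) (σ : G → Z.Od × Z.Od) (b : Z.Od) (g : G)
    (p : Z.Od × Z.Od)
    (hg : g = Z.reg b.1 ∨ ∀ i r, g ∉ Z.N (Z.reg (Z.K.sh r (Z.loc.D b i)))) :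
    Z.bay adj hF (Function.update σ g p) b = Z.bay adj hF σ b := by
  unfold bay
  congr 1
  funext i t
  refine law_congr (As_update_of_not_mem _ _ _ _ _ ?_) t
  rcases hg with h | h
  · left
    rw [h]
    exact mem_singleton_self _
  · right
    exact h i

theorem rob_update (σ : G → Z.Od × Z.Od) (b : Z.Od) (p : Z.Od × Z.Od) :
    Rob Z adj (Function.update σ (Z.reg b.1) p) b ↔ Rob Z adj σ b := by
  unfold Rob
  refine forall_congr' fun i => forall_congr' fun t => ?_
  rw [As_update_of_not_mem _ _ _ _ _ (Or.inl (mem_singleton_self _))]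

/-- The region of a site sees only the position of the neighbour in its cell. -/
theorem reg_sees (b : Z.Od) (i : Fin n) (r : R)
    (h : Z.reg b.1 ∈ Z.N (Z.reg (Z.K.sh r (Z.loc.D b i)))) : r = Z.co (Z.K.nbr i b.1) := by
  refine Z.uniq (Z.loc.D b i) r _ (Z.reg b.1) h ?_
  rw [Z.at_co]
  exact Z.reg_mem i b.1

/-- The valid fillings of the cell of a neighbour, in terms of the seeds of the region of the
site. -/
theorem V_site (hs : 8 ≤ Fintype.card R) (σ : G → Z.Od × Z.Od) (b : Z.Od) (i : Fin n)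
    (hrob : Rob Z adj σ b) (π : Equiv.Perm R) :
    π ∈ Z.V adj ∅ σ (Z.loc.D b i) ↔ π ∈ Z.V adj {Z.reg b.1} σ (Z.loc.D b i) ∧
      Z.okv adj (σ (Z.reg b.1)) (Z.K.sh (π (Z.co (Z.K.nbr i b.1))) (Z.loc.D b i)) := by
  classical
  have hmem : ∀ r t, t ∈ Z.As adj ∅ σ (Z.loc.D b i) r ↔
      t ∈ Z.As adj {Z.reg b.1} σ (Z.loc.D b i) r ∧
      (r = Z.co (Z.K.nbr i b.1) → Z.okv adj (σ (Z.reg b.1)) (Z.K.sh t (Z.loc.D b i))) := by
    intro r t
    rw [mem_As, mem_As]
    constructor
    · intro h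
      refine ⟨fun g hg _ => h g hg (notMem_empty g), fun hr => ?_⟩
      refine h _ ?_ (notMem_empty _)
      rw [hr, Z.at_co]
      exact Z.reg_mem i b.1
    · rintro ⟨h1, h2⟩ g hg _
      by_cases hgr : g = Z.reg b.1
      · rw [hgr] at hg ⊢
        exact h2 (reg_sees b i r hg)
      · exact h1 g hg (by rw [mem_singleton]; exact hgr)
  have hgood1 : ∀ t, 4 * (univ.filter
      (fun r => t ∉ Z.As adj {Z.reg b.1} σ (Z.loc.D b i) r)).card ≤ Fintype.card R := by
    intro t
    have := hrob i t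
    have e : (univ.filter (fun r => t ∉ Z.As adj {Z.reg b.1} σ (Z.loc.D b i) r)).card * 8 ≤
        Fintype.card R := by
      rw [mul_comm]
      convert this
    omega
  have hgood0 : ∀ t, 4 * (univ.filter
      (fun r => t ∉ Z.As adj ∅ σ (Z.loc.D b i) r)).card ≤ Fintype.card R := by
    intro t
    have h1 : univ.filter (fun r => t ∉ Z.As adj ∅ σ (Z.loc.D b i) r) ⊆
        insert (Z.co (Z.K.nbr i b.1))
          (univ.filter (fun r => t ∉ Z.As adj {Z.reg b.1} σ (Z.loc.D b i) r)) := by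
      intro r hr
      rw [mem_filter, hmem] at hr
      rw [mem_insert, mem_filter]
      by_contra hc
      push Not at hc
      exact hr.2 ⟨hc.2 (mem_univ r), fun h => absurd h hc.1⟩
    have h2 := (card_le_card h1).trans (card_insert_le _ _)
    have h3 := hrob i t
    have e : (univ.filter (fun r => t ∉ Z.As adj {Z.reg b.1} σ (Z.loc.D b i) r)).card * 8 ≤
        Fintype.card R := by
      rw [mul_comm]
      convert h3
    omega
  have e1 : Z.V adj ∅ σ (Z.loc.D b i) = validP (Z.As adj ∅ σ (Z.loc.D b i)) := by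
    unfold V
    rw [if_pos]
    intro t
    convert hgood0 t
  have e2 : Z.V adj {Z.reg b.1} σ (Z.loc.D b i) =
      validP (Z.As adj {Z.reg b.1} σ (Z.loc.D b i)) := by
    unfold V
    rw [if_pos]
    intro t
    convert hgood1 t
  rw [e1, e2, mem_validP, mem_validP]
  constructor
  · intro h
    refine ⟨fun r => ((hmem r _).1 (h r)).1, ?_⟩
    exact ((hmem _ _).1 (h (Z.co (Z.K.nbr i b.1)))).2 rfl
  · rintro ⟨h1, h2⟩ r
    rw [hmem]
    refine ⟨h1 r, fun hr => ?_⟩
    rw [hr]
    exact h2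

/-- The law of what a robust site sees, given all seeds, is the conditional law of the
posterior data. -/
theorem law_site (hF : Few Z adj) (hs : 8 ≤ Fintype.card R) (σ : G → Z.Od × Z.Od) (b : Z.Od)
    (hrob : Rob Z adj σ b) (S : Fin n → R) :
    ∏ i, Z.loc.law (Z.P adj ∅ σ) b i (S i) =
      (Z.bay adj hF σ b).L (σ (Z.reg b.1)).1 (σ (Z.reg b.1)).2 S := by
  classical
  unfold Bay.L Bay.A
  rw [← prod_div_distrib]
  refine prod_congr rfl fun i _ => ?_
  set W := Z.V adj {Z.reg b.1} σ (Z.loc.D b i) with hW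
  set r0 := Z.co (Z.K.nbr i b.1) with hr0
  have hWc : (0:ℝ) < W.card := by exact_mod_cast card_pos.2 (V_nonempty hF _ σ _)
  let okt : R → Prop := fun t => Z.okv adj (σ (Z.reg b.1)) (Z.K.sh t (Z.loc.D b i))
  have hok : ∀ t, ((Z.bay adj hF σ b).ok i (σ (Z.reg b.1)).1 t ∧
      (Z.bay adj hF σ b).ok i (σ (Z.reg b.1)).2 t) ↔ okt t := fun t => Iff.rfl
  have hV : Z.V adj ∅ σ (Z.loc.D b i) = W.filter (fun π => okt (π r0)) := by
    ext π
    rw [mem_filter]
    exact V_site hs σ b i hrob π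
  have hp : ∀ t, (Z.bay adj hF σ b).p i t =
      ((W.filter (fun π => π r0 = t)).card : ℝ) * (W.card : ℝ)⁻¹ := fun t =>
    law_eq _ σ b i t
  have hnum : Z.loc.law (Z.P adj ∅ σ) b i (S i) =
      (((W.filter (fun π => okt (π r0))).filter (fun π => π r0 = S i)).card : ℝ) *
        ((W.filter (fun π => okt (π r0))).card : ℝ)⁻¹ := by
    rw [law_eq, hV]
  have hden : (∑ t, if (Z.bay adj hF σ b).ok i (σ (Z.reg b.1)).1 t ∧
      (Z.bay adj hF σ b).ok i (σ (Z.reg b.1)).2 t then (Z.bay adj hF σ b).p i t else 0) =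
      ((W.filter (fun π => okt (π r0))).card : ℝ) * (W.card : ℝ)⁻¹ := by
    have h1 : ∀ t, (if (Z.bay adj hF σ b).ok i (σ (Z.reg b.1)).1 t ∧
        (Z.bay adj hF σ b).ok i (σ (Z.reg b.1)).2 t then (Z.bay adj hF σ b).p i t else 0) =
        (((W.filter (fun π => okt (π r0))).filter (fun π => π r0 = t)).card : ℝ) *
          (W.card : ℝ)⁻¹ := by
      intro t
      split_ifs with h
      · rw [hp]
        congr 2
        congr 1
        rw [filter_filter]
        refine filter_congr fun π _ => ?_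
        constructor
        · intro h'
          exact ⟨by rw [h']; exact (hok t).1 h, h'⟩
        · exact fun h' => h'.2
      · have : (W.filter (fun π => okt (π r0))).filter (fun π => π r0 = t) = ∅ := by
          rw [filter_eq_empty_iff]
          intro π hπ hπt
          rw [mem_filter, hπt] at hπ
          exact h ((hok t).2 hπ.2)
        rw [this]
        simp
    simp_rw [h1]
    rw [← sum_mul]
    congr 1
    rw [← Nat.cast_sum]
    congr 1
    exact (card_eq_sum_card_fiberwise (fun π _ => mem_univ (π r0))).symm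
  rw [hnum, hden]
  by_cases hc : okt (S i)
  · rw [if_pos ((hok (S i)).2 hc), hp]
    have h2 : (W.filter (fun π => okt (π r0))).filter (fun π => π r0 = S i) =
        W.filter (fun π => π r0 = S i) := by
      rw [filter_filter]
      refine filter_congr fun π _ => ?_
      constructor
      · exact fun h' => h'.2
      · intro h'
        exact ⟨by rw [h']; exact hc, h'⟩
    rw [h2]
    by_cases h0 : ((W.filter (fun π => okt (π r0))).card : ℝ) = 0
    · rw [h0]
      simp
    · field_simp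
  · rw [if_neg (fun h => hc ((hok (S i)).1 h)), zero_div]
    have : (W.filter (fun π => okt (π r0))).filter (fun π => π r0 = S i) = ∅ := by
      rw [filter_eq_empty_iff]
      intro π hπ hπt
      rw [mem_filter, hπt] at hπ
      exact hc hπ.2
    rw [this]
    simp

end Geom

end Pool.Agent.H73.Cube
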